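import Pool.Agent.H15L.Step

/-!
# Localization at the irreducible components: the induction
-/

set_option autoImplicit false
set_option linter.unusedSectionVars false
set_option linter.unusedVariables false

namespace Pool.Agent.H15L

open Matrix Pool.Agent.H812R2.SSE

/-- every vertex lies on a closed path -/
def NT {α : Type} [Fintype α] [DecidableEq α] (A : Matrix α α ℕ) : Prop :=
  ∀ x, ∃ n, 0 < n ∧ (A ^ n) x x ≠ 0

/-- the restriction to the components of `a` and `b` -/
def cmpR {α β : Type} [Fintype α] [DecidableEq α] [Fintype β] [DecidableEq β]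
    (A : Matrix α α ℕ) (B : Matrix β β ℕ) (R : Matrix α β ℕ) (a : α) (b : β) :
    Matrix (compO A a).ι (compO B b).ι ℕ := fun u v => R u.1 v.1

/-- the diagonal blocks of a shift equivalence are realised up to powers -/
def LocR {α β : Type} [Fintype α] [DecidableEq α] [Fintype β] [DecidableEq β]
    (A : Matrix α α ℕ) (B : Matrix β β ℕ) (R : Matrix α β ℕ) (S : Matrix β α ℕ) : Prop :=
  ∀ (a : α) (b : β), R a b ≠ 0 → (∃ a', Mut A a a' ∧ S b a' ≠ 0) →
    ∃ t, CH (compO A a) (compO B b) ((compO A a).M ^ t * cmpR A B R a b)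

/-- isomorphism of objects -/
structure Eqv (X X' : Obj) where
  e : X.ι ≃ X'.ι
  h : ∀ i j, X'.M (e i) (e j) = X.M i j

theorem Eqv.M {X X' : Obj} (E : Eqv X X') : X.M.submatrix E.e.symm E.e.symm = X'.M := by
  ext i j
  rw [Matrix.submatrix_apply, ← E.h]
  simp

theorem Eqv.pow {X X' : Obj} (E : Eqv X X') (t : ℕ) (i j : X.ι) :
    (X'.M ^ t) (E.e i) (E.e j) = (X.M ^ t) i j := by
  rw [← E.M, ← submatrix_pow]
  simp

/-- the isomorphism chain -/
theorem Eqv.ch {X X' : Obj} (E : Eqv X X') :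
    CH X X' ((1 : Matrix X'.ι X'.ι ℕ).submatrix E.e id) := by
  have h := CH.iso E.e X.M
  rw [E.M] at h
  exact h

theorem Eqv.transport {X Y X' Y' : Obj} (E : Eqv X X') (F : Eqv Y Y') {ρ : Matrix X.ι Y.ι ℕ}
    {ρ' : Matrix X'.ι Y'.ι ℕ} (hρ : ∀ i j, ρ' (E.e i) (F.e j) = ρ i j) (h : CH X' Y' ρ') :
    CH X Y ρ := by
  refine CH.reindex E.e F.e X.M Y.M ρ ?_
  have h1 : ρ.submatrix E.e.symm F.e.symm = ρ' := by
    ext i j
    rw [Matrix.submatrix_apply, ← hρ]
    simp
  rw [E.M, F.M, h1]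
  exact h

theorem Eqv.transportR {X Y X' Y' : Obj} (E : Eqv X X') (F : Eqv Y Y') {R : Matrix X.ι Y.ι ℕ}
    {R' : Matrix X'.ι Y'.ι ℕ} (hR : ∀ i j, R' (E.e i) (F.e j) = R i j) {t : ℕ}
    (h : CH X' Y' (X'.M ^ t * R')) : CH X Y (X.M ^ t * R) := by
  refine E.transport F (fun i j => ?_) h
  rw [Matrix.mul_apply, Matrix.mul_apply, ← Equiv.sum_comp E.e]
  exact Finset.sum_congr rfl fun k _ => by rw [E.pow, hR]

theorem pow_inl {γ β : Type} [Fintype γ] [DecidableEq γ] [Fintype β] [DecidableEq β] {α : Type}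
    [Fintype α] [DecidableEq α] {A : Matrix α α ℕ} (e : α ≃ γ ⊕ β) {C : Matrix γ γ ℕ}
    {m : Matrix γ β ℕ} {A1 : Matrix β β ℕ} (h : A.submatrix e.symm e.symm = fromBlocks C m 0 A1)
    (k : ℕ) : (∀ a b, (C ^ k) a b = (A ^ k) (e.symm (Sum.inl a)) (e.symm (Sum.inl b))) ∧
      (∀ a b, (A1 ^ k) a b = (A ^ k) (e.symm (Sum.inr a)) (e.symm (Sum.inr b))) := by
  have h1 := submatrix_pow A e.symm k
  rw [h, block_pow] at h1
  constructor
  · intro a b
    have h2 := congrFun (congrFun h1 (Sum.inl a)) (Sum.inl b)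
    rw [Matrix.fromBlocks_apply₁₁, Matrix.submatrix_apply] at h2
    exact h2.symm
  · intro a b
    have h2 := congrFun (congrFun h1 (Sum.inr a)) (Sum.inr b)
    rw [Matrix.fromBlocks_apply₂₂, Matrix.submatrix_apply] at h2
    exact h2.symm

theorem core : ∀ (N : ℕ) (α β : Type) [Fintype α] [DecidableEq α] [Fintype β] [DecidableEq β]
    (A : Matrix α α ℕ) (B : Matrix β β ℕ) (_ : NT A) (_ : NT B) (l : ℕ)
    (R : Matrix α β ℕ) (S : Matrix β α ℕ) (_ : A * R = R * B) (_ : S * A = B * S)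
    (_ : R * S = A ^ l) (_ : S * R = B ^ l) (_ : LocR A B R S), Fintype.card α = N →
    ∃ t, CH ⟨α, A⟩ ⟨β, B⟩ (A ^ t * R) := by
  intro N
  induction N using Nat.strong_induction_on with
  | _ N ih =>
  intro α β _ _ _ _ A B hA hB l R S h3 h4 h1 h2 hloc hN
  classical
  rcases isEmpty_or_nonempty α with hα | hα
  · have hβ : IsEmpty β := by
      refine ⟨fun b => ?_⟩
      obtain ⟨n, hn, hb⟩ := hB b
      have h5 := pow_mul_ne hb l
      have h6 : B ^ (n * l) = B ^ l * B ^ (n * l - l) := by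
        rw [← pow_add]
        congr 1
        have := Nat.le_mul_of_pos_left l hn
        omega
      rw [h6, ← h2] at h5
      obtain ⟨b', h7, -⟩ := ex_mul h5
      obtain ⟨a, -, -⟩ := ex_mul h7
      exact hα.elim a
    refine ⟨0, CH.single (X := ⟨α, A⟩) (Y := ⟨β, B⟩) (A ^ 0 * R) S ?_ ?_⟩
    · ext a; exact hα.elim a
    · ext b; exact hβ.elim b
  · obtain ⟨u0, _, hu0⟩ := Finset.exists_min_image (Finset.univ : Finset α)
      (fun i => (Finset.univ.filter (fun w => Rch A w i)).card)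
      (by obtain ⟨a⟩ := hα; exact ⟨a, Finset.mem_univ _⟩)
    have hmin : ∀ w, Rch A w u0 → Rch A u0 w := by
      intro w hw
      have e1 : (Finset.univ.filter (fun x => Rch A x w)) ⊆
          (Finset.univ.filter (fun x => Rch A x u0)) := by
        intro x
        simp only [Finset.mem_filter, Finset.mem_univ, true_and]
        exact fun h => h.trans hw
      have e2 := Finset.eq_of_subset_of_card_le e1 (hu0 w (Finset.mem_univ _))
      have e3 : u0 ∈ Finset.univ.filter (fun x => Rch A x w) := by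
        rw [e2]; simp [Rch.refl]
      simpa only [Finset.mem_filter, Finset.mem_univ, true_and] using e3
    set p : α → Prop := fun u => Mut A u0 u with hp
    have hpred : ∀ w u, Rch A w u → p u → p w := by
      intro w u hwu hu
      have e1 : Rch A w u0 := hwu.trans hu.2
      exact ⟨hmin w e1, e1⟩
    -- the matching vertex
    have hSA : ∀ k, B ^ k * S = S * A ^ k := fun k => semiconj_pow B A S h4.symm k
    have hAR : ∀ k, A ^ k * R = R * B ^ k := fun k => semiconj_pow A B R h3 k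
    obtain ⟨u1, v0, hu1, hR0, hS0⟩ : ∃ u1 v0, p u1 ∧ R u0 v0 ≠ 0 ∧ S v0 u1 ≠ 0 := by
      obtain ⟨n, hn, hb⟩ := hA u0
      have h5 := pow_mul_ne hb l
      have h6 : A ^ (n * l) = A ^ l * A ^ (n * l - l) := by
        rw [← pow_add]
        congr 1
        have := Nat.le_mul_of_pos_left l hn
        omega
      rw [h6, ← h1] at h5
      obtain ⟨u1, h7, h8⟩ := ex_mul h5
      obtain ⟨v0, h9, h10⟩ := ex_mul h7
      exact ⟨u1, v0, hpred u1 u0 ⟨_, h8⟩ (Mut.refl A u0), h9, h10⟩
    set p' : β → Prop := fun v => Mut B v0 v with hp'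
    have hin : ∀ w, Rch B w v0 → Rch B v0 w := by
      rintro w ⟨k, hk⟩
      have h5 : (B ^ k * S) w u1 ≠ 0 := ne_mul hk hS0
      rw [hSA] at h5
      obtain ⟨u2, h6, h7⟩ := ex_mul h5
      have hu2 : p u2 := hpred _ _ ⟨_, h7⟩ hu1
      obtain ⟨n, hn, hb⟩ := hB w
      have h8 := pow_mul_ne hb l
      have h9 : B ^ (n * l) = B ^ (n * l - l) * B ^ l := by
        rw [← pow_add]
        congr 1
        have := Nat.le_mul_of_pos_left l hn
        omega
      rw [h9, ← h2] at h8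
      obtain ⟨w'', h10, h11⟩ := ex_mul h8
      obtain ⟨u, h12, h13⟩ := ex_mul h11
      have h14 : (R * S) u u2 ≠ 0 := ne_mul h13 h6
      rw [h1] at h14
      have hu : p u := hpred _ _ ⟨_, h14⟩ hu2
      obtain ⟨k', hk'⟩ : Rch A u1 u := hu1.2.trans hu.1
      have h15 : (S * A ^ k' * R) v0 w ≠ 0 := ne_mul (ne_mul hS0 hk') h13
      rw [Matrix.mul_assoc, hAR, ← Matrix.mul_assoc, h2, ← pow_add] at h15
      exact ⟨_, h15⟩
    have hpred' : ∀ w v, Rch B w v → p' v → p' w := by
      intro w v hwv hv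
      have e1 : Rch B w v0 := hwv.trans hv.2
      exact ⟨hin w e1, e1⟩
    have cl2 : ∀ u w, R u w ≠ 0 → p' w → p u := by
      intro u w h hw
      obtain ⟨k, hk⟩ := hw.2
      have h5 : (R * B ^ k * S) u u1 ≠ 0 := ne_mul (ne_mul h hk) hS0
      rw [← hAR, Matrix.mul_assoc, h1, ← pow_add] at h5
      exact hpred _ _ ⟨_, h5⟩ hu1
    have cl3 : ∀ w u, S w u ≠ 0 → p u → p' w := by
      intro w u h hu
      obtain ⟨k, hk⟩ := hu.2
      have h5 : (S * A ^ k * R) w v0 ≠ 0 := ne_mul (ne_mul h hk) hR0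
      rw [Matrix.mul_assoc, hAR, ← Matrix.mul_assoc, h2, ← pow_add] at h5
      exact hpred' _ _ ⟨_, h5⟩ (Mut.refl B v0)
    -- the blocks
    set C : Matrix {u // p u} {u // p u} ℕ := fun u v => A u.1 v.1 with hC
    set m : Matrix {u // p u} {u // ¬ p u} ℕ := fun u v => A u.1 v.1 with hm
    set A1 : Matrix {u // ¬ p u} {u // ¬ p u} ℕ := fun u v => A u.1 v.1 with hA1
    set C' : Matrix {u // p' u} {u // p' u} ℕ := fun u v => B u.1 v.1 with hC'
    set m' : Matrix {u // p' u} {u // ¬ p' u} ℕ := fun u v => B u.1 v.1 with hm'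
    set B1 : Matrix {u // ¬ p' u} {u // ¬ p' u} ℕ := fun u v => B u.1 v.1 with hB1
    set R0 : Matrix {u // p u} {u // p' u} ℕ := fun u v => R u.1 v.1 with hR0'
    set r12 : Matrix {u // p u} {u // ¬ p' u} ℕ := fun u v => R u.1 v.1 with hr12
    set R2 : Matrix {u // ¬ p u} {u // ¬ p' u} ℕ := fun u v => R u.1 v.1 with hR2
    set S0 : Matrix {u // p' u} {u // p u} ℕ := fun u v => S u.1 v.1 with hS0'
    set s12 : Matrix {u // p' u} {u // ¬ p u} ℕ := fun u v => S u.1 v.1 with hs12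
    set S2 : Matrix {u // ¬ p' u} {u // ¬ p u} ℕ := fun u v => S u.1 v.1 with hS2
    set e : α ≃ {u // p u} ⊕ {u // ¬ p u} := (Equiv.sumCompl p).symm with he
    set f : β ≃ {u // p' u} ⊕ {u // ¬ p' u} := (Equiv.sumCompl p').symm with hf
    have he1 : ∀ u, e.symm (Sum.inl u) = u.1 := fun u => rfl
    have he2 : ∀ u, e.symm (Sum.inr u) = u.1 := fun u => rfl
    have hf1 : ∀ u, f.symm (Sum.inl u) = u.1 := fun u => rfl
    have hf2 : ∀ u, f.symm (Sum.inr u) = u.1 := fun u => rfl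
    have bA : A.submatrix e.symm e.symm = fromBlocks C m 0 A1 := by
      ext i j
      rcases i with i | i <;> rcases j with j | j
      · rfl
      · rfl
      · simp only [Matrix.submatrix_apply, he1, he2, Matrix.fromBlocks_apply₂₁, Matrix.zero_apply]
        by_contra hne
        exact i.2 (hpred i.1 j.1 (Rch.edge hne) j.2)
      · rfl
    have bB : B.submatrix f.symm f.symm = fromBlocks C' m' 0 B1 := by
      ext i j
      rcases i with i | i <;> rcases j with j | j
      · rfl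
      · rfl
      · simp only [Matrix.submatrix_apply, hf1, hf2, Matrix.fromBlocks_apply₂₁, Matrix.zero_apply]
        by_contra hne
        exact i.2 (hpred' i.1 j.1 (Rch.edge hne) j.2)
      · rfl
    have bR : R.submatrix e.symm f.symm = fromBlocks R0 r12 0 R2 := by
      ext i j
      rcases i with i | i <;> rcases j with j | j
      · rfl
      · rfl
      · simp only [Matrix.submatrix_apply, he2, hf1, Matrix.fromBlocks_apply₂₁, Matrix.zero_apply]
        by_contra hne
        exact i.2 (cl2 i.1 j.1 hne j.2)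
      · rfl
    have bS : S.submatrix f.symm e.symm = fromBlocks S0 s12 0 S2 := by
      ext i j
      rcases i with i | i <;> rcases j with j | j
      · rfl
      · rfl
      · simp only [Matrix.submatrix_apply, he1, hf2, Matrix.fromBlocks_apply₂₁, Matrix.zero_apply]
        by_contra hne
        exact i.2 (cl3 i.1 j.1 hne j.2)
      · rfl
    have D : Dt C m A1 C' m' B1 R0 r12 R2 S0 s12 S2 l := by
      refine ⟨?_, ?_, ?_⟩
      · rw [← bA, ← bR, ← bB, Matrix.submatrix_mul_equiv, Matrix.submatrix_mul_equiv, h3]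
      · rw [← bR, ← bS, ← bA, Matrix.submatrix_mul_equiv, h1, submatrix_pow]
      · rw [← bS, ← bR, ← bB, Matrix.submatrix_mul_equiv, h2, submatrix_pow]
    have hSA2 : S2 * A1 = B1 * S2 := by
      have h : fromBlocks S0 s12 0 S2 * fromBlocks C m 0 A1 =
          fromBlocks C' m' 0 B1 * fromBlocks S0 s12 0 S2 := by
        rw [← bA, ← bS, ← bB, Matrix.submatrix_mul_equiv, Matrix.submatrix_mul_equiv, h4]
      rw [Matrix.fromBlocks_multiply, Matrix.fromBlocks_multiply, Matrix.fromBlocks_inj] at h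
      simpa using h.2.2.2
    have pA := fun k => pow_inl e bA k
    have pB := fun k => pow_inl f bB k
    have RA1 : ∀ a b : {u // ¬ p u}, Rch A1 a b ↔ Rch A a.1 b.1 := by
      intro a b
      unfold Rch
      simp only [(pA _).2, he2]
    have RB1 : ∀ a b : {u // ¬ p' u}, Rch B1 a b ↔ Rch B a.1 b.1 := by
      intro a b
      unfold Rch
      simp only [(pB _).2, hf2]
    have MA1 : ∀ a b : {u // ¬ p u}, Mut A1 a b ↔ Mut A a.1 b.1 := by
      intro a b; unfold Mut; rw [RA1, RA1]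
    have MB1 : ∀ a b : {u // ¬ p' u}, Mut B1 a b ↔ Mut B a.1 b.1 := by
      intro a b; unfold Mut; rw [RB1, RB1]
    have ntC : NT C := fun x => by
      obtain ⟨n, hn, h⟩ := hA x.1
      exact ⟨n, hn, by rw [(pA n).1]; exact h⟩
    have ntA1 : NT A1 := fun x => by
      obtain ⟨n, hn, h⟩ := hA x.1
      exact ⟨n, hn, by rw [(pA n).2]; exact h⟩
    have ntB1 : NT B1 := fun x => by
      obtain ⟨n, hn, h⟩ := hB x.1
      exact ⟨n, hn, by rw [(pB n).2]; exact h⟩
    have irr : ∀ i j, Rch C i j := by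
      intro i j
      obtain ⟨k, hk⟩ : Rch A i.1 j.1 := i.2.2.trans j.2.1
      exact ⟨k, by rw [(pA k).1]; exact hk⟩
    have hcard : Fintype.card {u // ¬ p u} < N := by
      rw [← hN]
      exact Fintype.card_subtype_lt (x := u0) (by simpa using Mut.refl A u0)
    have hloc1 : LocR A1 B1 R2 S2 := by
      rintro a b hab ⟨a', ha', hb⟩
      obtain ⟨t, ht⟩ := hloc a.1 b.1 hab ⟨a'.1, (MA1 _ _).1 ha', hb⟩
      refine ⟨t, ?_⟩
      let ε : {j : {u // ¬ p u} // Mut A1 a j} ≃ {j // Mut A a.1 j} :=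
        { toFun := fun j => ⟨j.1.1, (MA1 _ _).1 j.2⟩
          invFun := fun j => ⟨⟨j.1, fun h => a.2 (Mut.trans h j.2.symm)⟩, (MA1 _ _).2 j.2⟩
          left_inv := fun j => rfl
          right_inv := fun j => rfl }
      let η : {j : {u // ¬ p' u} // Mut B1 b j} ≃ {j // Mut B b.1 j} :=
        { toFun := fun j => ⟨j.1.1, (MB1 _ _).1 j.2⟩
          invFun := fun j => ⟨⟨j.1, fun h => b.2 (Mut.trans h j.2.symm)⟩, (MB1 _ _).2 j.2⟩
          left_inv := fun j => rfl
          right_inv := fun j => rfl }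
      exact Eqv.transportR (X := compO A1 a) (Y := compO B1 b) (X' := compO A a.1)
        (Y' := compO B b.1) ⟨ε, fun i j => rfl⟩ ⟨η, fun i j => rfl⟩ (fun i j => rfl) ht
    obtain ⟨t1, c1⟩ := ih _ hcard _ _ A1 B1 ntA1 ntB1 l R2 S2 D.cR2 hSA2 D.R2S2 D.S2R2 hloc1 rfl
    obtain ⟨t0, c0⟩ := hloc u0 v0 hR0 ⟨u1, hu1, hS0⟩
    have c0' : CH ⟨{u // p u}, C⟩ ⟨{u // p' u}, C'⟩ (C ^ t0 * R0) := by
      exact Eqv.transportR (X := ⟨{u // p u}, C⟩) (Y := ⟨{u // p' u}, C'⟩) (X' := compO A u0)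
        (Y' := compO B v0) ⟨Equiv.refl _, fun i j => rfl⟩ ⟨Equiv.refl _, fun i j => rfl⟩
        (fun i j => rfl) c0
    obtain ⟨t, ht⟩ := D.step irr ntC ntB1 c0' c1
    refine ⟨t, CH.reindex e f A B _ ?_⟩
    rw [bA, bB]
    have q6 : (A ^ t * R).submatrix e.symm f.symm =
        (fromBlocks C m 0 A1) ^ t * fromBlocks R0 r12 0 R2 := by
      rw [← bA, ← bR, ← submatrix_pow, Matrix.submatrix_mul_equiv]
    rw [q6]
    exact ht

end Pool.Agent.H15L
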