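import Pool.Agent.H15L.Red

/-!
# Unimodular nonnegative `2 × 2` matrices: every shift equivalence is realised
-/

set_option autoImplicit false
set_option linter.unusedSectionVars false
set_option linter.unusedVariables false

namespace Pool.Agent.H15L

open Matrix Pool.Agent.H812R2.SSE

/-- the integer matrix -/
def zz {α β : Type} (A : Matrix α β ℕ) : Matrix α β ℤ := A.map (Nat.castRingHom ℤ)

theorem zz_mul {α β γ : Type} [Fintype β] (A : Matrix α β ℕ) (B : Matrix β γ ℕ) :
    zz (A * B) = zz A * zz B := by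
  unfold zz
  exact Matrix.map_mul

theorem zz_pow {α : Type} [Fintype α] [DecidableEq α] (A : Matrix α α ℕ) (k : ℕ) :
    zz (A ^ k) = zz A ^ k := by
  induction k with
  | zero =>
    ext i j
    simp only [pow_zero, zz, Matrix.map_apply, Matrix.one_apply]
    split_ifs <;> simp
  | succ k ih => rw [pow_succ, zz_mul, ih, pow_succ]

theorem zz_inj {α β : Type} {A B : Matrix α β ℕ} (h : zz A = zz B) : A = B := by
  ext i j
  have := congrFun (congrFun h i) j
  simpa [zz] using this

theorem zz_nonneg {α β : Type} (A : Matrix α β ℕ) (i : α) (j : β) : 0 ≤ zz A i j := by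
  simp [zz]

/-- unimodular -/
def Um (A : Matrix (Fin 2) (Fin 2) ℕ) : Prop := (zz A).det = 1 ∨ (zz A).det = -1

theorem Um.sq {A : Matrix (Fin 2) (Fin 2) ℕ} (h : Um A) : (zz A).det * (zz A).det = 1 := by
  rcases h with h | h <;> rw [h] <;> norm_num

theorem cancel {A : Matrix (Fin 2) (Fin 2) ℕ} (h : Um A) {γ : Type} {X Y : Matrix (Fin 2) γ ℕ}
    (e : A * X = A * Y) : X = Y := by
  apply zz_inj
  have e1 : zz A * zz X = zz A * zz Y := by rw [← zz_mul, ← zz_mul, e]
  have e2 : ∀ Z : Matrix (Fin 2) γ ℤ,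
      ((zz A).det • (zz A).adjugate) * (zz A * Z) = Z := by
    intro Z
    rw [← Matrix.mul_assoc, Matrix.smul_mul, Matrix.adjugate_mul, smul_smul, h.sq, one_smul,
      Matrix.one_mul]
  rw [← e2 (zz X), e1, e2]

theorem Um.of_mul {R S : Matrix (Fin 2) (Fin 2) ℕ} (h : Um (R * S)) : Um R := by
  unfold Um at h ⊢
  rw [zz_mul, Matrix.det_mul] at h
  rw [← Int.isUnit_iff] at h ⊢
  exact isUnit_of_mul_isUnit_left h

theorem Um.of_mul' {R S : Matrix (Fin 2) (Fin 2) ℕ} (h : Um (R * S)) : Um S := by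
  unfold Um at h ⊢
  rw [zz_mul, Matrix.det_mul] at h
  rw [← Int.isUnit_iff] at h ⊢
  exact isUnit_of_mul_isUnit_right h

theorem Um.pow {A : Matrix (Fin 2) (Fin 2) ℕ} (h : Um A) (k : ℕ) : Um (A ^ k) := by
  unfold Um at h ⊢
  rw [zz_pow, Matrix.det_pow]
  rw [← Int.isUnit_iff] at h ⊢
  exact h.pow k

/-- the arithmetic of the comparison -/
theorem arith {a b c d : ℤ} (hdet : a * d - b * c = 1 ∨ a * d - b * c = -1)
    {p1 p2 p3 p4 q1 q2 q3 q4 : ℤ} (hp1 : 0 ≤ p1) (hp2 : 0 ≤ p2) (hp3 : 0 ≤ p3) (hp4 : 0 ≤ p4)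
    (hq1 : 0 ≤ q1) (hq2 : 0 ≤ q2) (hq3 : 0 ≤ q3) (hq4 : 0 ≤ q4)
    (hp : p1 * p4 - p2 * p3 ≠ 0) (hq : q1 * q4 - q2 * q3 ≠ 0)
    (e1 : 0 ≤ p1 * a + p2 * c) (e2 : 0 ≤ p3 * a + p4 * c)
    (e3 : 0 ≤ p1 * b + p2 * d) (e4 : 0 ≤ p3 * b + p4 * d)
    (f1 : 0 ≤ a * q1 + b * q3) (f2 : 0 ≤ a * q2 + b * q4)
    (f3 : 0 ≤ c * q1 + d * q3) (f4 : 0 ≤ c * q2 + d * q4) :
    (0 ≤ a ∧ 0 ≤ b ∧ 0 ≤ c ∧ 0 ≤ d) ∨
      (0 ≤ (a * d - b * c) * d ∧ 0 ≤ (a * d - b * c) * (-b) ∧ 0 ≤ (a * d - b * c) * (-c) ∧
        0 ≤ (a * d - b * c) * a) := by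
  have key : ∀ {x y u v s t : ℤ}, 0 ≤ u → 0 ≤ v → 0 ≤ s → 0 ≤ t → u * t - v * s ≠ 0 →
      0 ≤ u * x + v * y → 0 ≤ s * x + t * y → (x ≠ 0 ∨ y ≠ 0) → ¬ (x ≤ 0 ∧ y ≤ 0) := by
    rintro x y u v s t hu hv hs ht hne h1 h2 hxy ⟨hx, hy⟩
    have a1 : u * x ≤ 0 := mul_nonpos_of_nonneg_of_nonpos hu hx
    have a2 : v * y ≤ 0 := mul_nonpos_of_nonneg_of_nonpos hv hy
    have a3 : s * x ≤ 0 := mul_nonpos_of_nonneg_of_nonpos hs hx
    have a4 : t * y ≤ 0 := mul_nonpos_of_nonneg_of_nonpos ht hy
    have b1 : u * x = 0 := by linarith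
    have b2 : v * y = 0 := by linarith
    have b3 : s * x = 0 := by linarith
    have b4 : t * y = 0 := by linarith
    rcases hxy with hx' | hy'
    · have c1 : u = 0 := by rcases mul_eq_zero.1 b1 with h | h; exacts [h, absurd h hx']
      have c2 : s = 0 := by rcases mul_eq_zero.1 b3 with h | h; exacts [h, absurd h hx']
      exact hne (by rw [c1, c2]; ring)
    · have c1 : v = 0 := by rcases mul_eq_zero.1 b2 with h | h; exacts [h, absurd h hy']
      have c2 : t = 0 := by rcases mul_eq_zero.1 b4 with h | h; exacts [h, absurd h hy']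
      exact hne (by rw [c1, c2]; ring)
  have hdet' : a * d - b * c ≠ 0 := by rcases hdet with h | h <;> rw [h] <;> norm_num
  have k1 : ¬ (a ≤ 0 ∧ c ≤ 0) := key hp1 hp2 hp3 hp4 hp e1 e2 (by
    by_contra h; push Not at h; exact hdet' (by rw [h.1, h.2]; ring))
  have k2 : ¬ (b ≤ 0 ∧ d ≤ 0) := key hp1 hp2 hp3 hp4 hp e3 e4 (by
    by_contra h; push Not at h; exact hdet' (by rw [h.1, h.2]; ring))
  have k3 : ¬ (a ≤ 0 ∧ b ≤ 0) := key hq1 hq3 hq2 hq4 (by rw [mul_comm q3]; exact hq)
    (by linarith) (by linarith) (by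
    by_contra h; push Not at h; exact hdet' (by rw [h.1, h.2]; ring))
  have k4 : ¬ (c ≤ 0 ∧ d ≤ 0) := key hq1 hq3 hq2 hq4 (by rw [mul_comm q3]; exact hq)
    (by linarith) (by linarith) (by
    by_contra h; push Not at h; exact hdet' (by rw [h.1, h.2]; ring))
  -- impossible signs
  have key2 : ∀ {x y z w : ℤ}, 0 ≤ x → 0 ≤ y → 0 ≤ z → 0 ≤ w →
      (∀ q q' : ℤ, 0 ≤ a * q + b * q' → 0 ≤ c * q + d * q' →
        x * (a * q + b * q') + y * (c * q + d * q') = -q ∧
        z * (a * q + b * q') + w * (c * q + d * q') = -q') → False := by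
    intro x y z w hx hy hz hw h
    obtain ⟨g1, g2⟩ := h q1 q3 f1 f3
    obtain ⟨g3, g4⟩ := h q2 q4 f2 f4
    have i1 : 0 ≤ x * (a * q1 + b * q3) + y * (c * q1 + d * q3) :=
      add_nonneg (mul_nonneg hx f1) (mul_nonneg hy f3)
    have i2 : 0 ≤ z * (a * q1 + b * q3) + w * (c * q1 + d * q3) :=
      add_nonneg (mul_nonneg hz f1) (mul_nonneg hw f3)
    have j1 : q1 = 0 := by linarith
    have j2 : q3 = 0 := by linarith
    exact hq (by rw [j1, j2]; ring)
  by_cases ha : 0 ≤ a
  · by_cases hb : 0 ≤ b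
    · by_cases hc : 0 ≤ c
      · by_cases hd : 0 ≤ d
        · exact Or.inl ⟨ha, hb, hc, hd⟩
        · -- d < 0, so b, c > 0, a ≤ 0
          push Not at hd
          have hb' : 0 < b := by by_contra h; exact k2 ⟨by omega, by omega⟩
          have hc' : 0 < c := by by_contra h; exact k4 ⟨by omega, by omega⟩
          have ha' : a = 0 := by
            by_contra h
            have : 1 ≤ a := by omega
            rcases hdet with h | h <;> nlinarith
          right
          rcases hdet with h | h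
          · exfalso; rw [ha'] at h; nlinarith
          · rw [h, ha']; refine ⟨by linarith, by linarith, by linarith, by simp⟩
      · -- c < 0, so a > 0, d > 0, b ≤ 0
        push Not at hc
        have ha' : 0 < a := by by_contra h; exact k1 ⟨by omega, by omega⟩
        have hd' : 0 < d := by by_contra h; exact k4 ⟨by omega, by omega⟩
        have hb' : b = 0 := by
          by_contra h
          have : 1 ≤ b := by omega
          rcases hdet with h | h <;> nlinarith
        right
        rcases hdet with h | h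
        · rw [h, hb']; refine ⟨by linarith, by simp, by linarith, by linarith⟩
        · exfalso; rw [hb'] at h; nlinarith
    · -- b < 0, so d > 0, a > 0, c ≤ 0
      push Not at hb
      have hd' : 0 < d := by by_contra h; exact k2 ⟨by omega, by omega⟩
      have ha' : 0 < a := by by_contra h; exact k3 ⟨by omega, by omega⟩
      have hc' : c ≤ 0 := by
        by_contra h
        have : 1 ≤ c := by omega
        rcases hdet with h | h <;> nlinarith
      right
      rcases hdet with h | h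
      · rw [h]; refine ⟨by linarith, by linarith, by linarith, by linarith⟩
      · exfalso
        refine key2 (x := d) (y := -b) (z := -c) (w := a) hd'.le (by linarith) (by linarith)
          ha'.le fun q q' _ _ => ⟨?_, ?_⟩
        · linear_combination q * h
        · linear_combination q' * h
  · -- a < 0, so b, c > 0, d ≤ 0
    push Not at ha
    have hc' : 0 < c := by by_contra h; exact k1 ⟨by omega, by omega⟩
    have hb' : 0 < b := by by_contra h; exact k3 ⟨by omega, by omega⟩
    have hd' : d ≤ 0 := by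
      by_contra h
      have : 1 ≤ d := by omega
      rcases hdet with h | h <;> nlinarith
    right
    rcases hdet with h | h
    · exfalso
      refine key2 (x := -d) (y := b) (z := c) (w := -a) (by linarith) hb'.le hc'.le
        (by linarith) fun q q' _ _ => ⟨?_, ?_⟩
      · linear_combination (-q) * h
      · linear_combination (-q') * h
    · rw [h]; refine ⟨by linarith, by linarith, by linarith, by linarith⟩

/-- **Comparability**: two left divisors of a unimodular nonnegative matrix are comparable -/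
theorem compar {P Q P' Q' : Matrix (Fin 2) (Fin 2) ℕ} (hu : Um (P * Q)) (e : P * Q = P' * Q') :
    (∃ x, P' = P * x) ∨ ∃ x, P = P' * x := by
  have uP : Um P := hu.of_mul
  have uP' : Um P' := by rw [e] at hu; exact hu.of_mul
  have uQ' : Um Q' := by rw [e] at hu; exact hu.of_mul'
  set Y : Matrix (Fin 2) (Fin 2) ℤ := (zz P).det • (zz P).adjugate * zz P' with hY
  have y1 : zz P * Y = zz P' := by
    rw [hY, ← Matrix.mul_assoc, Matrix.mul_smul, Matrix.mul_adjugate, smul_smul, uP.sq, one_smul,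
      Matrix.one_mul]
  have y2 : Y * zz Q' = zz Q := by
    rw [hY, Matrix.mul_assoc, ← zz_mul, ← e, zz_mul, ← Matrix.mul_assoc, Matrix.smul_mul,
      Matrix.adjugate_mul, smul_smul, uP.sq, one_smul, Matrix.one_mul]
  have y3 : Y.det = 1 ∨ Y.det = -1 := by
    have h := congrArg Matrix.det y1
    rw [Matrix.det_mul] at h
    have h1 : Y.det = (zz P).det * (zz P').det := by
      calc Y.det = (zz P).det * (zz P).det * Y.det := by rw [uP.sq, one_mul]
        _ = _ := by rw [mul_assoc, h]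
    rcases uP with h2 | h2 <;> rcases uP' with h3 | h3 <;> rw [h1, h2, h3] <;> norm_num
  have y3' : Y 0 0 * Y 1 1 - Y 0 1 * Y 1 0 = 1 ∨ Y 0 0 * Y 1 1 - Y 0 1 * Y 1 0 = -1 := by
    rwa [Matrix.det_fin_two] at y3
  have dP : zz P 0 0 * zz P 1 1 - zz P 0 1 * zz P 1 0 ≠ 0 := by
    rw [← Matrix.det_fin_two]
    rcases uP with h | h <;> rw [h] <;> norm_num
  have dQ : zz Q' 0 0 * zz Q' 1 1 - zz Q' 0 1 * zz Q' 1 0 ≠ 0 := by
    rw [← Matrix.det_fin_two]
    rcases uQ' with h | h <;> rw [h] <;> norm_num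
  have g1 : ∀ i j, 0 ≤ zz P i 0 * Y 0 j + zz P i 1 * Y 1 j := by
    intro i j
    have := congrFun (congrFun y1 i) j
    rw [Matrix.mul_apply, Fin.sum_univ_two] at this
    rw [this]
    exact zz_nonneg _ _ _
  have g2 : ∀ i j, 0 ≤ Y i 0 * zz Q' 0 j + Y i 1 * zz Q' 1 j := by
    intro i j
    have := congrFun (congrFun y2 i) j
    rw [Matrix.mul_apply, Fin.sum_univ_two] at this
    rw [this]
    exact zz_nonneg _ _ _
  have main := arith y3' (zz_nonneg P 0 0) (zz_nonneg P 0 1) (zz_nonneg P 1 0) (zz_nonneg P 1 1)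
    (zz_nonneg Q' 0 0) (zz_nonneg Q' 0 1) (zz_nonneg Q' 1 0) (zz_nonneg Q' 1 1) dP dQ
    (g1 0 0) (g1 1 0) (g1 0 1) (g1 1 1) (g2 0 0) (g2 0 1) (g2 1 0) (g2 1 1)
  have nat : ∀ Z : Matrix (Fin 2) (Fin 2) ℤ, (∀ i j, 0 ≤ Z i j) → ∃ z : Matrix (Fin 2) (Fin 2) ℕ,
      zz z = Z := by
    intro Z hZ
    refine ⟨fun i j => (Z i j).toNat, ?_⟩
    ext i j
    change (((Z i j).toNat : ℕ) : ℤ) = Z i j
    exact Int.toNat_of_nonneg (hZ i j)
  rcases main with ⟨h1, h2, h3, h4⟩ | ⟨h1, h2, h3, h4⟩
  · obtain ⟨z, hz⟩ := nat Y (by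
      intro i j
      fin_cases i <;> fin_cases j
      · exact h1
      · exact h2
      · exact h3
      · exact h4)
    left
    exact ⟨z, zz_inj (by rw [zz_mul, hz, y1])⟩
  · obtain ⟨z, hz⟩ := nat (Y.det • Y.adjugate) (by
      intro i j
      rw [Matrix.det_fin_two, Matrix.adjugate_fin_two]
      fin_cases i <;> fin_cases j
      · exact h1
      · exact h2
      · exact h3
      · exact h4)
    right
    refine ⟨z, zz_inj ?_⟩
    rw [zz_mul, hz, ← y1, Matrix.mul_assoc, Matrix.mul_smul, Matrix.mul_adjugate, smul_smul]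
    have : Y.det * Y.det = 1 := by rcases y3 with h | h <;> rw [h] <;> norm_num
    rw [this, one_smul, Matrix.mul_one]

/-- every shift equivalence between unimodular nonnegative `2 × 2` matrices is realised -/
theorem um_real (A B : Matrix (Fin 2) (Fin 2) ℕ) (hA : Um A) (hB : Um B) :
    ∀ (l : ℕ) (R S : Matrix (Fin 2) (Fin 2) ℕ), R * S = A ^ l → S * R = B ^ l → A * R = R * B →
      S * A = B * S → ∃ t, CH ⟨Fin 2, A⟩ ⟨Fin 2, B⟩ (A ^ t * R) := by
  intro l
  induction l with
  | zero =>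
    intro R S h1 h2 h3 h4
    refine ⟨0, ?_⟩
    rw [pow_zero, Matrix.one_mul]
    refine CH.single (X := ⟨Fin 2, A⟩) (Y := ⟨Fin 2, B⟩) R (S * A) ?_ ?_
    · change A = R * (S * A)
      rw [← Matrix.mul_assoc, h1, pow_zero, Matrix.one_mul]
    · change B = S * A * R
      rw [Matrix.mul_assoc, h3, ← Matrix.mul_assoc, h2, pow_zero, Matrix.one_mul]
  | succ l ih =>
    intro R S h1 h2 h3 h4
    have uR : Um (R * S) := by rw [h1]; exact hA.pow _
    have e : R * S = A * A ^ l := by rw [h1, pow_succ']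
    rcases compar uR e with ⟨x, hx⟩ | ⟨x, hx⟩
    · -- A = R x
      refine ⟨0, ?_⟩
      rw [pow_zero, Matrix.one_mul]
      have h5 : x * R = B := by
        apply cancel uR.of_mul
        rw [← h3, ← Matrix.mul_assoc, ← hx]
      exact CH.single (X := ⟨Fin 2, A⟩) (Y := ⟨Fin 2, B⟩) R x hx h5.symm
    · -- R = A x
      have a1 : A * x = x * B := by
        apply cancel hA
        rw [← hx, h3, hx, Matrix.mul_assoc]
      have a2 : x * S = A ^ l := by
        apply cancel hA
        rw [← Matrix.mul_assoc, ← hx, h1, pow_succ']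
      have a3 : S * x = B ^ l := by
        apply cancel hB
        rw [← Matrix.mul_assoc, ← h4, Matrix.mul_assoc, ← hx, h2, pow_succ']
      obtain ⟨t, ct⟩ := ih x S a2 a3 a1 h4
      refine ⟨t, ?_⟩
      have c := CH.raise (X := ⟨Fin 2, A⟩) (Y := ⟨Fin 2, B⟩) (R := x) ct (Nat.le_succ t)
      change CH ⟨Fin 2, A⟩ ⟨Fin 2, B⟩ (A ^ (t + 1) * x) at c
      rw [pow_succ, Matrix.mul_assoc, ← hx] at c
      exact c

/-- the rank bound -/
theorem card_le {X Y : Obj} {l : ℕ} {R : Matrix X.ι Y.ι ℕ} {S : Matrix Y.ι X.ι ℕ}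
    (h : SEm X Y l R S) (hd : (X.M.map (Nat.castRingHom ℚ)).det ≠ 0) :
    Fintype.card X.ι ≤ Fintype.card Y.ι := by
  have h0 : ∀ k : ℕ, (X.M ^ k).map (Nat.castRingHom ℚ) = (X.M.map (Nat.castRingHom ℚ)) ^ k := by
    intro k
    exact map_pow (Nat.castRingHom ℚ).mapMatrix X.M k
  have h1 : (X.M.map (Nat.castRingHom ℚ)) ^ l =
      R.map (Nat.castRingHom ℚ) * S.map (Nat.castRingHom ℚ) := by
    rw [← Matrix.map_mul, h.m1, h0]
  have h2 : IsUnit ((X.M.map (Nat.castRingHom ℚ)) ^ l) := by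
    rw [Matrix.isUnit_iff_isUnit_det, Matrix.det_pow]
    exact (isUnit_iff_ne_zero.2 hd).pow l
  have h3 := Matrix.rank_of_isUnit _ h2
  rw [h1] at h3
  rw [← h3]
  exact (Matrix.rank_mul_le_left _ _).trans (Matrix.rank_le_card_width _)

/-- the basic matrices -/
inductive Bas : Obj → Prop
  | full (m : ℕ) : Bas ⟨Fin 1, fun _ _ => m⟩
  | cyc (m : ℕ) : Bas ⟨Fin m, fun i j => if j = finRotate m i then 1 else 0⟩
  | um (A : Matrix (Fin 2) (Fin 2) ℕ) (h : Um A) : Bas ⟨Fin 2, A⟩

theorem det_um {A : Matrix (Fin 2) (Fin 2) ℕ} (h : Um A) :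
    (A.map (Nat.castRingHom ℚ)).det ≠ 0 := by
  have h1 : A.map (Nat.castRingHom ℚ) = (zz A).map (Int.castRingHom ℚ) := by
    ext i j; simp [zz]
  have h2 : ((zz A).map (Int.castRingHom ℚ)).det = (((zz A).det : ℤ) : ℚ) := by
    have := RingHom.map_det (Int.castRingHom ℚ) (zz A)
    exact this.symm
  rw [h1, h2]
  rcases h with h | h <;> rw [h] <;> norm_num

/-- the cyclic permutation matrix -/
def cy (m : ℕ) : Matrix (Fin m) (Fin m) ℕ := fun i j => if j = finRotate m i then 1 else 0

theorem det_cyc (m : ℕ) : ((cy m).map (Nat.castRingHom ℚ)).det ≠ 0 := by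
  set M := (cy m).map (Nat.castRingHom ℚ) with hM
  have h : M * Mᵀ = 1 := by
    ext i j
    rw [Matrix.mul_apply, Finset.sum_eq_single (finRotate m i)]
    · simp only [hM, cy, Matrix.map_apply, Matrix.transpose_apply, Matrix.one_apply, if_true,
        map_one, one_mul]
      by_cases h : i = j
      · subst h; simp
      · rw [if_neg (fun h' => h ((finRotate m).injective h')), if_neg h, map_zero]
    · intro k _ hk
      simp only [hM, cy, Matrix.map_apply, if_neg hk, map_zero, zero_mul]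
    · intro h; exact absurd (Finset.mem_univ _) h
  have h1 := congrArg Matrix.det h
  rw [Matrix.det_mul, Matrix.det_one] at h1
  exact left_ne_zero_of_mul_eq_one h1

theorem um_cyc : Um (fun i j => if j = finRotate 2 i then 1 else 0) := by
  right
  rw [Matrix.det_fin_two]
  simp only [zz, Matrix.map_apply]
  decide

theorem str_full (m : ℕ) : Str (fun _ _ => m : Matrix (Fin 1) (Fin 1) ℕ) 1 (fun _ => 0) := by
  refine ⟨fun _ => rfl, ?_, fun _ => Or.inl rfl⟩
  intro a b _
  left; exact Subsingleton.elim _ _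

theorem str_cyc (m : ℕ) : Str (fun i j => if j = finRotate m i then 1 else 0 :
    Matrix (Fin m) (Fin m) ℕ) (finRotate m) (fun _ => 0) := by
  refine ⟨fun _ => rfl, ?_, ?_⟩
  · intro a b hab
    left
    by_contra hne
    exact hab (if_neg hne)
  · intro a
    right
    exact if_pos rfl

theorem str_allR {X Y : Obj} {σ : Equiv.Perm X.ι} {lvl : X.ι → ℕ} {τ : Equiv.Perm Y.ι}
    {lvl' : Y.ι → ℕ} (s : Str X.M σ lvl) (s' : Str Y.M τ lvl') : AllR X Y := by
  intro l R S h
  exact real_str X.M Y.M σ lvl τ lvl' s s' l h.hl R S h.m1 h.m2 h.c1 h.c2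

theorem um_allR {A B : Matrix (Fin 2) (Fin 2) ℕ} (hA : Um A) (hB : Um B) :
    AllR ⟨Fin 2, A⟩ ⟨Fin 2, B⟩ := by
  intro l R S h
  exact um_real A B hA hB l R S h.m1 h.m2 h.c1 h.c2

/-- **All shift equivalences between basic matrices are realised.** -/
theorem Bas.allR {X Y : Obj} (hX : Bas X) (hY : Bas Y) : AllR X Y := by
  cases hX with
  | full m =>
    cases hY with
    | full m' => exact str_allR (str_full m) (str_full m')
    | cyc m' => exact str_allR (str_full m) (str_cyc m')
    | um B hB =>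
      intro l R S h
      have := card_le h.symm (det_um hB)
      simp at this
  | cyc m =>
    cases hY with
    | full m' => exact str_allR (str_cyc m) (str_full m')
    | cyc m' => exact str_allR (str_cyc m) (str_cyc m')
    | um B hB =>
      intro l R S h
      have h1 := card_le h.symm (det_um hB)
      have h2 := card_le h (det_cyc m)
      simp only [Fintype.card_fin] at h1 h2
      obtain rfl : m = 2 := le_antisymm h2 h1
      exact um_allR um_cyc hB l R S h
  | um A hA =>
    cases hY with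
    | full m' =>
      intro l R S h
      have := card_le h (det_um hA)
      simp at this
    | cyc m' =>
      intro l R S h
      have h1 := card_le h.symm (det_cyc m')
      have h2 := card_le h (det_um hA)
      simp only [Fintype.card_fin] at h1 h2
      obtain rfl : m' = 2 := le_antisymm h1 h2
      exact um_allR hA um_cyc l R S h
    | um B hB => exact um_allR hA hB

end Pool.Agent.H15L
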