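import Pool.Agent.H812R2.SSE.Comp

/-!
# Firing games for arbitrary block triangular matrices
-/

set_option autoImplicit false
set_option linter.unusedSectionVars false

namespace Pool.Agent.H15L

open Matrix Pool.Agent.H812R2.SSE

variable {γ β : Type} [Fintype γ] [DecidableEq γ] [Fintype β] [DecidableEq β]

/-- a chain of elementary equivalences which changes the upper right block by firing `D` -/
def Fire (Θ : Matrix γ γ ℕ) (B : Matrix β β ℕ) (s D q : Matrix γ β ℕ) : Prop :=
  CH ⟨γ ⊕ β, fromBlocks Θ s 0 B⟩ ⟨γ ⊕ β, fromBlocks Θ q 0 B⟩ (fromBlocks 1 D 0 1)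

variable {Θ : Matrix γ γ ℕ} {B : Matrix β β ℕ}

theorem Fire.refl (s : Matrix γ β ℕ) : Fire Θ B s 0 s := by
  unfold Fire
  rw [fromBlocks_one]
  exact CH.refl _

theorem Fire.trans {s D q D' r : Matrix γ β ℕ} (h : Fire Θ B s D q) (h' : Fire Θ B q D' r) :
    Fire Θ B s (D + D') r := by
  have h2 := CH.trans h h'
  unfold Fire
  convert h2 using 1
  change fromBlocks 1 (D + D') 0 1 = fromBlocks 1 D 0 1 * fromBlocks 1 D' 0 1
  rw [fromBlocks_multiply]
  simp [add_comm]

theorem Fire.basic (z x : Matrix γ β ℕ) : Fire Θ B (z + x * B) x (z + Θ * x) := by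
  refine CH.single (X := ⟨γ ⊕ β, fromBlocks Θ (z + x * B) 0 B⟩)
    (Y := ⟨γ ⊕ β, fromBlocks Θ (z + Θ * x) 0 B⟩) (fromBlocks 1 x 0 1) (fromBlocks Θ z 0 B) ?_ ?_
  · simp [fromBlocks_multiply]
  · simp [fromBlocks_multiply, add_comm]

theorem Fire.eq {s D q : Matrix γ β ℕ} (h : Fire Θ B s D q) : q + D * B = s + Θ * D := by
  have h1 := (CH.rev' h).1
  change fromBlocks Θ s 0 B * fromBlocks 1 D 0 1 = fromBlocks 1 D 0 1 * fromBlocks Θ q 0 B at h1
  rw [fromBlocks_multiply, fromBlocks_multiply, fromBlocks_inj] at h1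
  have h2 := h1.2.1
  simp only [Matrix.mul_one, Matrix.one_mul] at h2
  rw [← h2, add_comm]

/-- the condition on the positions with constant numbers of chips -/
def Cst (Θ : Matrix γ γ ℕ) (B : Matrix β β ℕ) (D : Matrix γ β ℕ) (i : γ) (x : β) : Prop :=
  ∃ k0 y0, Θ i k0 = 1 ∧ (∀ k, k ≠ k0 → Θ i k = 0) ∧ B y0 x = 1 ∧ ∀ y, y ≠ y0 → D i y * B y x = 0

/-- every closed orbit in the support of `D` carries a chip -/
def Live (Θ : Matrix γ γ ℕ) (B : Matrix β β ℕ) (s D : Matrix γ β ℕ) : Prop :=
  ∀ (N : ℕ) (i : ℕ → γ) (y : ℕ → β), 0 < N → (∀ n, i (n + N) = i n) → (∀ n, y (n + N) = y n) →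
    (∀ n, Θ (i n) (i (n + 1)) ≠ 0) → (∀ n, B (y n) (y (n + 1)) ≠ 0) →
    (∀ n, D (i n) (y n) ≠ 0) → ∃ n, s (i n) (y (n + 1)) ≠ 0

theorem Cst.mul_left {i : γ} {x : β} {k0 : γ} (h1 : Θ i k0 = 1)
    (h2 : ∀ k, k ≠ k0 → Θ i k = 0) (M : Matrix γ β ℕ) : (Θ * M) i x = M k0 x := by
  rw [Matrix.mul_apply, Finset.sum_eq_single k0]
  · rw [h1, one_mul]
  · intro b _ hb; rw [h2 b hb, zero_mul]
  · intro h; exact absurd (Finset.mem_univ _) h

theorem Cst.mul_right {D M : Matrix γ β ℕ} {i : γ} {x : β} {y0 : β} (h3 : B y0 x = 1)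
    (h4 : ∀ y, y ≠ y0 → D i y * B y x = 0) (hM : ∀ y, D i y = 0 → M i y = 0) :
    (M * B) i x = M i y0 := by
  rw [Matrix.mul_apply, Finset.sum_eq_single y0]
  · rw [h3, mul_one]
  · intro b _ hb
    rcases Nat.mul_eq_zero.1 (h4 b hb) with h | h
    · rw [hM b h, zero_mul]
    · rw [h, mul_zero]
  · intro h; exact absurd (Finset.mem_univ _) h

theorem mul_le_mul_left' {D M : Matrix γ β ℕ} {i : γ} (h : ∀ y, M i y ≤ D i y) (x : β) :
    (M * B) i x ≤ (D * B) i x := by
  rw [Matrix.mul_apply, Matrix.mul_apply]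
  exact Finset.sum_le_sum fun y _ => Nat.mul_le_mul_right _ (h y)

theorem mul_gap {D M : Matrix γ β ℕ} {i : γ} (h : ∀ y, M i y ≤ D i y) {y : β} (hy : M i y < D i y)
    (x : β) : (M * B) i x + B y x ≤ (D * B) i x := by
  classical
  rw [Matrix.mul_apply, Matrix.mul_apply]
  rw [← Finset.sum_erase_add _ _ (Finset.mem_univ y), ← Finset.sum_erase_add (Finset.univ)
    (fun j => D i j * B j x) (Finset.mem_univ y), add_assoc]
  refine Nat.add_le_add (Finset.sum_le_sum fun y _ => Nat.mul_le_mul_right _ (h y)) ?_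
  have : M i y * B y x + B y x = (M i y + 1) * B y x := by ring
  rw [this]
  exact Nat.mul_le_mul_right _ hy

theorem periodic_zero {N : ℕ} (hN : 0 < N) (a s : ℕ → ℕ) (hp : ∀ n, a (n + N) = a n)
    (h : ∀ n, a n = s n + a (n + 1)) : ∀ n, s n = 0 := by
  have hmono : ∀ n k, a (n + k) ≤ a n := by
    intro n k
    induction k with
    | zero => exact le_rfl
    | succ k ih =>
      have := h (n + k)
      rw [← add_assoc]
      omega
  intro n
  have h1 := h n
  have h2 := hmono (n + 1) (N - 1)
  have h3 : n + 1 + (N - 1) = n + N := by omega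
  rw [h3, hp] at h2
  omega

theorem not_stuck {s D q : Matrix γ β ℕ} (hq : q + D * B = s + Θ * D)
    (H : ∀ i x, (D * B) i x ≠ 0 → (D * B) i x ≤ s i x ∨ Cst Θ B D i x)
    (hL : Live Θ B s D) {f X : Matrix γ β ℕ} (hf : ∀ i y, f i y ≤ D i y)
    (hne : ∃ i y, f i y < D i y) (hX : X + f * B = s + Θ * f) :
    ∃ i y, f i y < D i y ∧ ∀ x, B y x ≤ X i x := by
  classical
  by_contra hcon
  push Not at hcon
  have step : ∀ p : {p : γ × β // f p.1 p.2 < D p.1 p.2},
      ∃ p' : {p : γ × β // f p.1 p.2 < D p.1 p.2}, Θ p.1.1 p'.1.1 ≠ 0 ∧ B p.1.2 p'.1.2 ≠ 0 ∧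
        f p.1.1 p.1.2 = s p.1.1 p'.1.2 + f p'.1.1 p'.1.2 := by
    rintro ⟨⟨i, y⟩, hiy⟩
    simp only at hiy
    obtain ⟨x, hx⟩ := hcon i y hiy
    have hXe := congrFun (congrFun hX i) x
    have hqe := congrFun (congrFun hq i) x
    simp only [Matrix.add_apply] at hXe hqe
    have hgap := mul_gap (B := B) (hf i) hiy x
    have hne : (D * B) i x ≠ 0 := by omega
    rcases H i x hne with h | ⟨k0, y0, h1, h2, h3, h4⟩
    · exfalso; omega
    · have hyy : y = y0 := by
        by_contra hh
        have := h4 y hh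
        have h5 : D i y ≠ 0 := by omega
        have h6 : B y x ≠ 0 := by omega
        exact (Nat.mul_ne_zero h5 h6) this
      subst hyy
      rw [Cst.mul_left h1 h2, Cst.mul_right (D := D) h3 h4
        (fun y hy => by have := hf i y; omega)] at hXe
      rw [Cst.mul_left h1 h2, Cst.mul_right (D := D) h3 h4 (fun y hy => hy)] at hqe
      have hX0 : X i x = 0 := by omega
      refine ⟨⟨(k0, x), ?_⟩, ?_, ?_, ?_⟩
      · simp only; omega
      · simp only; omega
      · simp only; omega
      · simp only; omega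
  choose g hg using step
  obtain ⟨i0, y0, h0⟩ := hne
  let p : ℕ → {p : γ × β // f p.1 p.2 < D p.1 p.2} := fun n => g^[n] ⟨(i0, y0), h0⟩
  have hps : ∀ n, p (n + 1) = g (p n) := fun n => Function.iterate_succ_apply' g n _
  obtain ⟨m, m', hmm, hpe⟩ := Finite.exists_ne_map_eq_of_infinite p
  obtain ⟨m, N, hN, hpe⟩ : ∃ m N, 0 < N ∧ p (m + N) = p m := by
    rcases lt_or_gt_of_ne hmm with h | h
    · exact ⟨m, m' - m, by omega, by rw [Nat.add_sub_cancel' h.le]; exact hpe.symm⟩
    · exact ⟨m', m - m', by omega, by rw [Nat.add_sub_cancel' h.le]; exact hpe⟩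
  have hper : ∀ n, p (m + (n + N)) = p (m + n) := by
    intro n
    induction n with
    | zero => simpa using hpe
    | succ n ih =>
      have e1 : m + (n + 1 + N) = (m + (n + N)) + 1 := by ring
      have e2 : m + (n + 1) = (m + n) + 1 := by ring
      rw [e1, e2, hps, hps, ih]
  have hst : ∀ n, p (m + (n + 1)) = g (p (m + n)) := fun n => hps (m + n)
  obtain ⟨n, hn⟩ := hL N (fun n => (p (m + n)).1.1) (fun n => (p (m + n)).1.2) hN
    (fun n => congrArg (fun p => p.1.1) (hper n)) (fun n => congrArg (fun p => p.1.2) (hper n))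
    (fun n => by
      have h := (hg (p (m + n))).1
      rw [← hst n] at h
      exact h)
    (fun n => by
      have h := (hg (p (m + n))).2.1
      rw [← hst n] at h
      exact h)
    (fun n => (lt_of_le_of_lt (Nat.zero_le _) (p (m + n)).2).ne')
  have hz := periodic_zero hN (fun n => f (p (m + n)).1.1 (p (m + n)).1.2)
    (fun n => s (p (m + n)).1.1 (p (m + (n + 1))).1.2)
    (fun n => congrArg (fun p : {p : γ × β // f p.1 p.2 < D p.1 p.2} => f p.1.1 p.1.2) (hper n))
    (fun n => by
      have h := (hg (p (m + n))).2.2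
      rw [← hst n] at h
      exact h)
  exact hn (hz n)

theorem greedy_aux {s D q : Matrix γ β ℕ} (hq : q + D * B = s + Θ * D)
    (H : ∀ i x, (D * B) i x ≠ 0 → (D * B) i x ≤ s i x ∨ Cst Θ B D i x)
    (hL : Live Θ B s D) : ∀ (M : ℕ) (f X : Matrix γ β ℕ), (∀ i y, f i y ≤ D i y) →
      X + f * B = s + Θ * f → ∑ i, ∑ y, (D i y - f i y) = M → Fire Θ B X (D - f) q := by
  classical
  intro M
  induction M with
  | zero =>
    intro f X hf hX hM
    have hfD : f = D := by
      ext i y
      rw [Finset.sum_eq_zero_iff] at hM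
      have h2 := hM i (Finset.mem_univ _)
      rw [Finset.sum_eq_zero_iff] at h2
      have h3 := h2 y (Finset.mem_univ _)
      have := hf i y
      omega
    subst hfD
    have hXq : X = q := by
      ext i x
      have h1 := congrFun (congrFun hX i) x
      have h2 := congrFun (congrFun hq i) x
      simp only [Matrix.add_apply] at h1 h2
      omega
    subst hXq
    have : f - f = 0 := by ext i y; simp
    rw [this]
    exact Fire.refl _
  | succ M ih =>
    intro f X hf hX hM
    have hne : ∃ i y, f i y < D i y := by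
      by_contra hcon
      push Not at hcon
      have : ∑ i, ∑ y, (D i y - f i y) = 0 :=
        Finset.sum_eq_zero fun i _ => Finset.sum_eq_zero fun y _ => by
          have := hcon i y; omega
      omega
    obtain ⟨i, y, hiy, hBX⟩ := not_stuck hq H hL hf hne hX
    set E : Matrix γ β ℕ := Matrix.single i y 1 with hE
    have hEa : ∀ i' y', E i' y' = if i = i' ∧ y = y' then 1 else 0 := by
      intro i' y'; rw [hE, Matrix.single_apply]
    have hEB : ∀ i' x, (E * B) i' x = if i = i' then B y x else 0 := by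
      intro i' x
      rw [Matrix.mul_apply]
      by_cases h : i = i'
      · subst h
        rw [if_pos rfl, Finset.sum_eq_single y]
        · rw [hEa]; simp
        · intro b _ hb; rw [hEa, if_neg, zero_mul]; rintro ⟨_, h⟩; exact hb h.symm
        · intro h; exact absurd (Finset.mem_univ _) h
      · rw [if_neg h]
        refine Finset.sum_eq_zero fun b _ => ?_
        rw [hEa, if_neg, zero_mul]
        rintro ⟨h', _⟩; exact h h'
    set z : Matrix γ β ℕ := X - E * B with hz
    have hXz : X = z + E * B := by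
      ext i' x
      rw [hz, Matrix.add_apply, Matrix.sub_apply, hEB]
      split_ifs with h
      · subst h; have := hBX x; omega
      · simp
    have hf' : ∀ i' y', (f + E) i' y' ≤ D i' y' := by
      intro i' y'
      rw [Matrix.add_apply, hEa]
      split_ifs with h
      · rw [← h.1, ← h.2]; omega
      · simpa using hf i' y'
    have hX' : (z + Θ * E) + (f + E) * B = s + Θ * (f + E) := by
      rw [Matrix.add_mul, Matrix.mul_add, ← add_assoc s, ← hX]
      ext i' x
      have h7 := congrFun (congrFun hXz i') x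
      simp only [Matrix.add_apply] at h7 ⊢
      omega
    have hM' : ∑ i', ∑ y', (D i' y' - (f + E) i' y') = M := by
      have h1 : ∑ i', ∑ y', (D i' y' - f i' y') =
          ∑ i', ∑ y', (D i' y' - (f + E) i' y') + ∑ i', ∑ y', E i' y' := by
        rw [← Finset.sum_add_distrib]
        refine Finset.sum_congr rfl fun i' _ => ?_
        rw [← Finset.sum_add_distrib]
        refine Finset.sum_congr rfl fun y' _ => ?_
        have := hf' i' y'
        rw [Matrix.add_apply] at this ⊢
        omega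
      have h2 : ∑ i', ∑ y', E i' y' = 1 := by
        rw [Finset.sum_eq_single i, Finset.sum_eq_single y]
        · rw [hEa]; simp
        · intro b _ hb; rw [hEa, if_neg]; rintro ⟨_, h⟩; exact hb h.symm
        · intro h; exact absurd (Finset.mem_univ _) h
        · intro b _ hb
          refine Finset.sum_eq_zero fun a _ => ?_
          rw [hEa, if_neg]; rintro ⟨h, _⟩; exact hb h.symm
        · intro h; exact absurd (Finset.mem_univ _) h
      omega
    have h3 := ih (f + E) (z + Θ * E) hf' hX' hM'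
    have h4 := Fire.basic (Θ := Θ) (B := B) z E
    rw [← hXz] at h4
    have h5 := h4.trans h3
    have h6 : E + (D - (f + E)) = D - f := by
      ext i' y'
      have := hf' i' y'
      simp only [Matrix.add_apply, Matrix.sub_apply] at this ⊢
      omega
    rwa [h6] at h5

/-- **The greedy lemma.** -/
theorem greedy {s D q : Matrix γ β ℕ} (hq : q + D * B = s + Θ * D)
    (H : ∀ i x, (D * B) i x ≠ 0 → (D * B) i x ≤ s i x ∨ Cst Θ B D i x)
    (hL : Live Θ B s D) : Fire Θ B s D q := by
  have h := greedy_aux hq H hL _ 0 s (fun _ _ => Nat.zero_le _) (by simp) rfl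
  have h0 : D - 0 = D := by ext i y; simp
  rwa [h0] at h

end Pool.Agent.H15L
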