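import Pool.Agent.H15L.Tower

/-!
# Growth of the numbers of paths
-/

set_option autoImplicit false
set_option linter.unusedSectionVars false

namespace Pool.Agent.H15L

open Matrix Pool.Agent.H812R2.SSE

section one

variable {δ : Type} [Fintype δ] [DecidableEq δ]

theorem ne_mul {α β γ : Type} [Fintype β] {X : Matrix α β ℕ} {Y : Matrix β γ ℕ} {i : α} {j : γ}
    {b : β} (h1 : X i b ≠ 0) (h2 : Y b j ≠ 0) : (X * Y) i j ≠ 0 := by
  rw [Matrix.mul_apply]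
  have h3 : X i b * Y b j ≤ ∑ b, X i b * Y b j :=
    Finset.single_le_sum (f := fun b => X i b * Y b j) (fun _ _ => Nat.zero_le _)
      (Finset.mem_univ b)
  have h4 := Nat.mul_pos (Nat.pos_of_ne_zero h1) (Nat.pos_of_ne_zero h2)
  omega

theorem ex_mul {α β γ : Type} [Fintype β] {X : Matrix α β ℕ} {Y : Matrix β γ ℕ} {i : α} {j : γ}
    (h : (X * Y) i j ≠ 0) : ∃ b, X i b ≠ 0 ∧ Y b j ≠ 0 := by
  rw [Matrix.mul_apply] at h
  obtain ⟨a, _, ha⟩ := Finset.exists_ne_zero_of_sum_ne_zero h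
  exact ⟨a, fun h0 => ha (by rw [h0, zero_mul]), fun h0 => ha (by rw [h0, mul_zero])⟩

theorem le_mul {α β γ : Type} [Fintype β] (X : Matrix α β ℕ) (Y : Matrix β γ ℕ) (i : α) (b : β)
    (j : γ) : X i b * Y b j ≤ (X * Y) i j := by
  rw [Matrix.mul_apply]
  exact Finset.single_le_sum (f := fun b => X i b * Y b j) (fun _ _ => Nat.zero_le _)
    (Finset.mem_univ b)

theorem pow_mul_ne {M : Matrix δ δ ℕ} {L : ℕ} {x : δ} (h : (M ^ L) x x ≠ 0) (k : ℕ) :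
    (M ^ (L * k)) x x ≠ 0 := by
  induction k with
  | zero => simp
  | succ k ih => rw [Nat.mul_succ]; exact pow_add_ne ih h

theorem pow_growth {M : Matrix δ δ ℕ} {N : ℕ} {x : δ} (h : 2 ≤ (M ^ N) x x) (c : ℕ) :
    2 ^ c ≤ (M ^ (N * c)) x x := by
  induction c with
  | zero => simp
  | succ c ih =>
    rw [Nat.mul_succ, pow_add M, pow_succ]
    exact (Nat.mul_le_mul ih h).trans (le_mul _ _ x x x)

theorem modEq_add_mul (L n c b : ℕ) : n + L * c ≡ b [MOD L] ↔ n ≡ b [MOD L] := by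
  unfold Nat.ModEq
  rw [Nat.add_mul_mod_self_left]

theorem modEq_sub (L N M a : ℕ) (h : N * (L * M) ≤ a) : a - N * (L * M) ≡ a [MOD L] := by
  have h1 : a - N * (L * M) + L * (N * M) = a := by
    have : N * (L * M) = L * (N * M) := by ring
    omega
  have h2 := (modEq_add_mul L (a - N * (L * M)) (N * M) a).1 (by rw [h1])
  exact h2

/-- in each residue class modulo `L` paths of one length give paths of all large lengths -/
theorem eventually_ne (M : Matrix δ δ ℕ) {L : ℕ} (hL : 0 < L) (h : ∀ x, (M ^ L) x x ≠ 0) :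
    ∃ n0, ∀ x y n, n0 ≤ n → (∃ n', n' ≡ n [MOD L] ∧ (M ^ n') x y ≠ 0) → (M ^ n) x y ≠ 0 := by
  obtain ⟨K, hK⟩ := bound_exists (P := δ × δ × Fin L)
    (fun k p => k % L = p.2.2.1 ∧ (M ^ k) p.1 p.2.1 ≠ 0)
  refine ⟨K, fun x y n hn ⟨n', h1, h2⟩ => ?_⟩
  obtain ⟨k, hk, hk1, hk2⟩ := hK (x, y, ⟨n % L, Nat.mod_lt _ hL⟩) ⟨n', h1, h2⟩
  simp only at hk1 hk2
  have h3 : L ∣ n - k := (Nat.modEq_iff_dvd' (hk.trans hn)).1 hk1
  obtain ⟨c, hc⟩ := h3
  have h4 : n = L * c + k := by omega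
  rw [h4]
  exact pow_add_ne (pow_mul_ne (h x) c) hk2

/-- a common return time -/
theorem exists_period (M : Matrix δ δ ℕ) (h : ∀ x, ∃ n, 0 < n ∧ (M ^ n) x x ≠ 0) :
    ∃ L, 0 < L ∧ ∀ x, (M ^ L) x x ≠ 0 := by
  choose n hn1 hn2 using h
  refine ⟨∏ x, n x, Finset.prod_pos fun x _ => hn1 x, fun x => ?_⟩
  obtain ⟨c, hc⟩ := Finset.dvd_prod_of_mem n (Finset.mem_univ x)
  rw [hc]
  exact pow_mul_ne (hn2 x) c

end one

variable {γ β : Type} [Fintype γ] [DecidableEq γ] [Fintype β] [DecidableEq β]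
variable {Θ : Matrix γ γ ℕ} {B : Matrix β β ℕ}

theorem Tm_ex {a b : ℕ} {e : Matrix γ β ℕ} {i : γ} {x : β} (h : Tm Θ B a b e i x ≠ 0) :
    ∃ k y, (Θ ^ a) i k ≠ 0 ∧ e k y ≠ 0 ∧ (B ^ b) y x ≠ 0 := by
  obtain ⟨y, h1, h2⟩ := ex_mul h
  obtain ⟨k, h3, h4⟩ := ex_mul h1
  exact ⟨k, y, h3, h4, h2⟩

theorem Tm_ge (a b : ℕ) (e : Matrix γ β ℕ) (i k : γ) (y x : β) (he : e k y ≠ 0) :
    (Θ ^ a) i k * (B ^ b) y x ≤ Tm Θ B a b e i x := by
  unfold Tm
  refine le_trans ?_ (le_mul _ _ i y x)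
  refine Nat.mul_le_mul_right _ (le_trans ?_ (le_mul _ _ i k y))
  exact Nat.le_mul_of_pos_right _ (Nat.pos_of_ne_zero he)

theorem Tm_ne {a b : ℕ} {e : Matrix γ β ℕ} {i k : γ} {y x : β} (h1 : (Θ ^ a) i k ≠ 0)
    (he : e k y ≠ 0) (h2 : (B ^ b) y x ≠ 0) : Tm Θ B a b e i x ≠ 0 :=
  ne_mul (ne_mul h1 he) h2

/-- **Growth.** -/
theorem grow {L : ℕ} (hL : 0 < L) (hΘ : ∀ i, (Θ ^ L) i i ≠ 0) (hB : ∀ x, (B ^ L) x x ≠ 0)
    {e : Matrix γ β ℕ} {i : γ} {x : β} {α b0 : ℕ} (h0 : Tm Θ B α b0 e i x ≠ 0)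
    (ht : (∃ N, 2 ≤ (Θ ^ N) i i) ∨ (∃ N, 2 ≤ (B ^ N) x x) ∨
      ∃ y b', b' + 1 ≡ b0 [MOD L] ∧ Tm Θ B α b' e i y ≠ 0 ∧ B y x ≠ 0 ∧ ¬ Rch B x y) (M : ℕ) :
    ∃ n1, ∀ a' b', n1 ≤ a' → n1 ≤ b' → a' ≡ α [MOD L] → b' ≡ b0 [MOD L] →
      M ≤ Tm Θ B a' b' e i x := by
  obtain ⟨p, hp⟩ := eventually_ne Θ hL hΘ
  obtain ⟨r, hr⟩ := eventually_ne B hL hB
  have hpow : M ≤ 2 ^ (L * M) := by
    have h1 : M < 2 ^ M := Nat.lt_two_pow_self
    have h2 : 2 ^ M ≤ 2 ^ (L * M) := Nat.pow_le_pow_right (by norm_num)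
      (Nat.le_mul_of_pos_left _ hL)
    omega
  rcases ht with ⟨N, hN⟩ | ⟨N, hN⟩ | ⟨y, b', hb', hy, hyx, hxy⟩
  · obtain ⟨k, y, h1, h2, h3⟩ := Tm_ex h0
    refine ⟨p + r + N * (L * M), fun a' b' ha hb ha' hb' => ?_⟩
    have h4 : (Θ ^ (a' - N * (L * M))) i k ≠ 0 := by
      refine hp _ _ _ (by omega) ⟨α, ?_, h1⟩
      exact ((modEq_sub L N M a' (by omega)).trans ha').symm
    have h5 : (B ^ b') y x ≠ 0 := hr _ _ _ (by omega) ⟨b0, hb'.symm, h3⟩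
    have h6 : (Θ ^ (N * (L * M))) i i * (Θ ^ (a' - N * (L * M))) i k ≤ (Θ ^ a') i k := by
      have : Θ ^ a' = Θ ^ (N * (L * M)) * Θ ^ (a' - N * (L * M)) := by
        rw [← pow_add]; congr 1; omega
      rw [this]
      exact le_mul _ _ i i k
    have h7 := pow_growth hN (L * M)
    have h8 := Tm_ge (Θ := Θ) (B := B) a' b' e i k y x h2
    have h9 : M * 1 ≤ (Θ ^ a') i k * (B ^ b') y x := by
      refine Nat.mul_le_mul ?_ (Nat.pos_of_ne_zero h5)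
      refine le_trans ?_ h6
      refine le_trans (hpow.trans h7) ?_
      exact Nat.le_mul_of_pos_right _ (Nat.pos_of_ne_zero h4)
    omega
  · obtain ⟨k, y, h1, h2, h3⟩ := Tm_ex h0
    refine ⟨p + r + N * (L * M), fun a' b' ha hb ha' hb' => ?_⟩
    have h4 : (B ^ (b' - N * (L * M))) y x ≠ 0 := by
      refine hr _ _ _ (by omega) ⟨b0, ?_, h3⟩
      exact ((modEq_sub L N M b' (by omega)).trans hb').symm
    have h5 : (Θ ^ a') i k ≠ 0 := hp _ _ _ (by omega) ⟨α, ha'.symm, h1⟩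
    have h6 : (B ^ (b' - N * (L * M))) y x * (B ^ (N * (L * M))) x x ≤ (B ^ b') y x := by
      have : B ^ b' = B ^ (b' - N * (L * M)) * B ^ (N * (L * M)) := by
        rw [← pow_add]; congr 1; omega
      rw [this]
      exact le_mul _ _ y x x
    have h7 := pow_growth hN (L * M)
    have h8 := Tm_ge (Θ := Θ) (B := B) a' b' e i k y x h2
    have h9 : 1 * M ≤ (Θ ^ a') i k * (B ^ b') y x := by
      refine Nat.mul_le_mul (Nat.pos_of_ne_zero h5) ?_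
      refine le_trans ?_ h6
      refine le_trans (hpow.trans h7) ?_
      exact Nat.le_mul_of_pos_left _ (Nat.pos_of_ne_zero h4)
    omega
  · obtain ⟨k, z, h1, h2, h3⟩ := Tm_ex hy
    -- the first step of a closed path at `y`
    obtain ⟨L', rfl⟩ : ∃ L', L = L' + 1 := ⟨L - 1, by omega⟩
    have h4 := hB y
    rw [pow_succ'] at h4
    obtain ⟨w, h5, h6⟩ := ex_mul h4
    have hwx : w ≠ x := by
      rintro rfl
      exact hxy ⟨L', h6⟩
    have h7 : (B ^ (b' + 1)) z w ≠ 0 := pow_add_ne h3 (by rwa [pow_one])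
    have h8 : (B ^ (L' + 1)) w x ≠ 0 := pow_add_ne h6 (by rwa [pow_one])
    have hstep : ∀ n, r ≤ n → n ≡ b' + 1 [MOD (L' + 1)] →
        (B ^ n) z x + 1 ≤ (B ^ (n + (L' + 1))) z x := by
      intro n hn hn'
      have h9 : (B ^ n) z w ≠ 0 := hr _ _ _ hn ⟨b' + 1, hn'.symm, h7⟩
      rw [pow_add, Matrix.mul_apply]
      have hsub : ({x, w} : Finset β) ⊆ Finset.univ := Finset.subset_univ _
      have h10 := Finset.sum_le_sum_of_subset
        (f := fun v => (B ^ n) z v * (B ^ (L' + 1)) v x) hsub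
      rw [Finset.sum_pair hwx.symm] at h10
      have h11 : (B ^ n) z x ≤ (B ^ n) z x * (B ^ (L' + 1)) x x :=
        Nat.le_mul_of_pos_right _ (Nat.pos_of_ne_zero (hB x))
      have h12 := Nat.mul_pos (Nat.pos_of_ne_zero h9) (Nat.pos_of_ne_zero h8)
      omega
    have hlin : ∀ c n, r ≤ n → n ≡ b' + 1 [MOD (L' + 1)] →
        c ≤ (B ^ (n + (L' + 1) * c)) z x := by
      intro c
      induction c with
      | zero => intro n _ _; exact Nat.zero_le _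
      | succ c ih =>
        intro n hn hn'
        have h9 := ih n hn hn'
        have h10 := hstep (n + (L' + 1) * c) (by omega)
          ((modEq_add_mul _ _ _ _).2 hn')
        have h11 : n + (L' + 1) * (c + 1) = n + (L' + 1) * c + (L' + 1) := by ring
        rw [h11]
        omega
    refine ⟨p + r + (L' + 1) * M, fun a' b1 ha hb ha' hb1 => ?_⟩
    have h9 : (Θ ^ a') i k ≠ 0 := hp _ _ _ (by omega) ⟨α, ha'.symm, h1⟩
    have h10 : M ≤ (B ^ b1) z x := by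
      have h11 : b1 = (b1 - (L' + 1) * M) + (L' + 1) * M := by omega
      have h12 : b1 - (L' + 1) * M ≡ b' + 1 [MOD (L' + 1)] := by
        have h13 : b1 - (L' + 1) * M + (L' + 1) * M ≡ b' + 1 [MOD (L' + 1)] := by
          rw [← h11]; exact hb1.trans hb'.symm
        exact (modEq_add_mul _ _ _ _).1 h13
      rw [h11]
      exact hlin M _ (by omega) h12
    have h11 := Tm_ge (Θ := Θ) (B := B) a' b1 e i k z x h2
    have h12 : 1 * M ≤ (Θ ^ a') i k * (B ^ b1) z x := Nat.mul_le_mul (Nat.pos_of_ne_zero h9) h10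
    omega

/-- either there is growth, or there are unique neighbours -/
theorem dich {L : ℕ} (hL : 0 < L) (hΘ : ∀ i, (Θ ^ L) i i ≠ 0) (hB : ∀ x, (B ^ L) x x ≠ 0)
    (hirr : ∀ i j, Rch Θ i j) (i : γ) (x : β) :
    (∃ N, 2 ≤ (Θ ^ N) i i) ∨ (∃ N, 2 ≤ (B ^ N) x x) ∨
      ∃ k0 y0, Θ i k0 = 1 ∧ (∀ k, k ≠ k0 → Θ i k = 0) ∧ B y0 x = 1 ∧
        ∀ y, y ≠ y0 → Rch B x y → B y x = 0 := by
  obtain ⟨L', rfl⟩ : ∃ L', L = L' + 1 := ⟨L - 1, by omega⟩
  by_cases h1 : ∃ N, 2 ≤ (Θ ^ N) i i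
  · exact Or.inl h1
  by_cases h2 : ∃ N, 2 ≤ (B ^ N) x x
  · exact Or.inr (Or.inl h2)
  right; right
  have h3 := hΘ i
  rw [pow_succ'] at h3
  obtain ⟨k0, h4, -⟩ := ex_mul h3
  have h5 := hB x
  rw [pow_succ] at h5
  obtain ⟨y0, h6, h7⟩ := ex_mul h5
  refine ⟨k0, y0, ?_, ?_, ?_, ?_⟩
  · by_contra hne
    obtain ⟨n, hn⟩ := hirr k0 i
    apply h1
    refine ⟨n + 1, ?_⟩
    rw [pow_succ']
    refine le_trans ?_ (le_mul _ _ i k0 i)
    have h8 : 2 ≤ Θ i k0 := by omega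
    exact Nat.le_trans h8 (Nat.le_mul_of_pos_right _ (Nat.pos_of_ne_zero hn))
  · intro k hk
    by_contra hne
    exact h1 (two_succ hk hne (hirr _ _) h4 (hirr _ _))
  · by_contra hne
    apply h2
    refine ⟨L' + 1, ?_⟩
    rw [pow_succ]
    refine le_trans ?_ (le_mul _ _ x y0 x)
    have h8 : 2 ≤ B y0 x := by omega
    exact Nat.le_trans h8 (Nat.le_mul_of_pos_left _ (Nat.pos_of_ne_zero h6))
  · intro y hy hxy
    by_contra hne
    exact h2 (two_pred hy hne hxy h7 ⟨L', h6⟩)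

end Pool.Agent.H15L
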