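import Pool.Agent.H15L.Fire

/-!
# Interpolation: firing in many balanced stages
-/

set_option autoImplicit false
set_option linter.unusedSectionVars false

namespace Pool.Agent.H15L

open Matrix Pool.Agent.H812R2.SSE

variable {γ β : Type} [Fintype γ] [DecidableEq γ] [Fintype β] [DecidableEq β]
variable {Θ : Matrix γ γ ℕ} {B : Matrix β β ℕ}

/-- the matrix with all entries one -/
def J (γ β : Type) : Matrix γ β ℕ := fun _ _ => 1

theorem interp {s D q : Matrix γ β ℕ} (hq : q + D * B = s + Θ * D) (G : γ → β → Prop)
    (hG : ∀ i x, G i x → (Θ * J γ β) i x + (J γ β * B) i x + 1 ≤ s i x ∧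
      (Θ * J γ β) i x + (J γ β * B) i x + 1 ≤ q i x)
    (hC : ∀ i x, (D * B) i x ≠ 0 → G i x ∨ Cst Θ B D i x)
    (hL : Live Θ B s D) : Fire Θ B s D q := by
  classical
  obtain ⟨K, hK0, hK1, hK2⟩ : ∃ K : ℕ, 0 < K ∧ (∀ i y, D i y ≤ K) ∧ True := by
    refine ⟨1 + ∑ i, ∑ y, D i y, by omega, fun i y => ?_, trivial⟩
    have h1 : D i y ≤ ∑ y, D i y :=
      Finset.single_le_sum (f := fun y => D i y) (fun _ _ => Nat.zero_le _) (Finset.mem_univ y)
    have h2 : ∑ y, D i y ≤ ∑ i, ∑ y, D i y :=
      Finset.single_le_sum (f := fun i => ∑ y, D i y) (fun _ _ => Nat.zero_le _) (Finset.mem_univ i)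
    omega
  set F : ℕ → Matrix γ β ℕ := fun k i y => k * D i y / K with hF
  have F0 : F 0 = 0 := by ext i y; simp [hF]
  have FK : F K = D := by ext i y; simp only [hF]; exact Nat.mul_div_cancel_left _ hK0
  have Fmono : ∀ k i y, F k i y ≤ F (k + 1) i y := fun k i y =>
    Nat.div_le_div_right (Nat.mul_le_mul_right _ (Nat.le_succ _))
  have Fstep : ∀ k i y, F (k + 1) i y ≤ F k i y + 1 := by
    intro k i y
    simp only [hF]
    have : (k + 1) * D i y ≤ k * D i y + K := by
      have := hK1 i y; nlinarith
    calc (k + 1) * D i y / K ≤ (k * D i y + K) / K := Nat.div_le_div_right this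
      _ = k * D i y / K + 1 := Nat.add_div_right _ hK0
  have FleD : ∀ k, k ≤ K → ∀ i y, F k i y ≤ D i y := by
    intro k hk i y
    simp only [hF]
    calc k * D i y / K ≤ K * D i y / K := Nat.div_le_div_right (Nat.mul_le_mul_right _ hk)
      _ = D i y := Nat.mul_div_cancel_left _ hK0
  have FK1 : ∀ k i y, K * F k i y ≤ k * D i y := fun k i y => Nat.mul_div_le _ _
  have FK2 : ∀ k i y, k * D i y ≤ K * F k i y + K := by
    intro k i y
    have := Nat.lt_mul_div_succ (k * D i y) hK0
    simp only [hF]
    rw [Nat.mul_add, Nat.mul_one] at this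
    exact this.le
  have FB : ∀ k i x, K * (F k * B) i x ≤ k * (D * B) i x := by
    intro k i x
    rw [Matrix.mul_apply, Matrix.mul_apply, Finset.mul_sum, Finset.mul_sum]
    refine Finset.sum_le_sum fun y _ => ?_
    rw [← mul_assoc, ← mul_assoc]
    exact Nat.mul_le_mul_right _ (FK1 k i y)
  have FT : ∀ k i x, k * (Θ * D) i x ≤ K * (Θ * F k) i x + K * (Θ * J γ β) i x := by
    intro k i x
    rw [Matrix.mul_apply, Matrix.mul_apply, Matrix.mul_apply, Finset.mul_sum, Finset.mul_sum,
      Finset.mul_sum, ← Finset.sum_add_distrib]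
    refine Finset.sum_le_sum fun y _ => ?_
    have := FK2 k y x
    have h2 := Nat.mul_le_mul_left (Θ i y) this
    simp only [J]
    nlinarith
  -- the key inequalities
  have keyG : ∀ k ≤ K, ∀ i x, G i x →
      (F k * B) i x + ((J γ β * B) i x + 1) ≤ (s + Θ * F k) i x := by
    intro k hk i x hg
    obtain ⟨g1, g2⟩ := hG i x hg
    have e := congrFun (congrFun hq i) x
    simp only [Matrix.add_apply] at e ⊢
    have a1 := FB k i x
    have a2 := FT k i x
    set a := (F k * B) i x
    set b := (Θ * F k) i x
    set d := (D * B) i x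
    set t := (Θ * D) i x
    set c1 := (Θ * J γ β) i x
    set c2 := (J γ β * B) i x
    obtain ⟨r, hr⟩ := Nat.exists_eq_add_of_le hk
    have h1 : k * (q i x) + k * d = k * s i x + k * t := by rw [← mul_add, e, mul_add]
    have h2 : K * (a + (c2 + 1)) ≤ K * (s i x + b) := by
      have h3 : k * (c1 + c2 + 1) ≤ k * q i x := Nat.mul_le_mul_left _ g2
      have h4 : r * (c1 + c2 + 1) ≤ r * s i x := Nat.mul_le_mul_left _ g1
      have h5 : K * s i x = k * s i x + r * s i x := by rw [hr]; ring
      have h6 : K * (c1 + c2 + 1) = k * (c1 + c2 + 1) + r * (c1 + c2 + 1) := by rw [hr]; ring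
      have h7 : K * (c1 + c2 + 1) = K * c1 + K * (c2 + 1) := by ring
      rw [mul_add, mul_add K (s i x)]
      omega
    exact Nat.le_of_mul_le_mul_left h2 hK0
  have keyC : ∀ k ≤ K, ∀ i x, Cst Θ B D i x → (F k * B) i x ≤ (s + Θ * F k) i x := by
    rintro k hk i x ⟨k0, y0, h1, h2, h3, h4⟩
    have e := congrFun (congrFun hq i) x
    simp only [Matrix.add_apply] at e ⊢
    rw [Cst.mul_left h1 h2, Cst.mul_right (D := D) h3 h4 (fun y hy => hy)] at e
    rw [Cst.mul_left h1 h2, Cst.mul_right (D := D) h3 h4
      (fun y hy => by simp only [hF]; rw [hy]; simp)]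
    simp only [hF]
    have h5 : D i y0 ≤ s i x + D k0 x := by omega
    have h6 : k * D i y0 ≤ k * D k0 x + K * s i x := by
      have h7 := Nat.mul_le_mul_left k h5
      have h8 := Nat.mul_le_mul_right (s i x) hk
      nlinarith
    calc k * D i y0 / K ≤ (k * D k0 x + K * s i x) / K := Nat.div_le_div_right h6
      _ = k * D k0 x / K + s i x := Nat.add_mul_div_left _ _ hK0
      _ = _ := add_comm _ _
  have key : ∀ k ≤ K, ∀ i x, (F k * B) i x ≤ (s + Θ * F k) i x := by
    intro k hk i x
    by_cases h0 : (D * B) i x = 0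
    · have := FB k i x
      rw [h0, mul_zero] at this
      have h1 : (F k * B) i x = 0 := by
        rcases Nat.mul_eq_zero.1 (Nat.le_zero.1 this) with h | h
        · omega
        · exact h
      omega
    · rcases hC i x h0 with h | h
      · have := keyG k hk i x h; omega
      · exact keyC k hk i x h
  -- the configurations
  set X : ℕ → Matrix γ β ℕ := fun k => s + Θ * F k - F k * B with hX
  have XE : ∀ k ≤ K, X k + F k * B = s + Θ * F k := by
    intro k hk
    ext i x
    have := key k hk i x
    simp only [hX]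
    rw [Matrix.add_apply, Matrix.sub_apply]
    omega
  have stage : ∀ k, k < K → Fire Θ B (X k) (F (k + 1) - F k) (X (k + 1)) := by
    intro k hk
    set x := F (k + 1) - F k with hx
    have hFx : F (k + 1) = F k + x := by
      ext i y; have := Fmono k i y; rw [hx, Matrix.add_apply, Matrix.sub_apply]; omega
    have hx1 : ∀ i y, x i y ≤ 1 := by
      intro i y; have := Fstep k i y; rw [hx, Matrix.sub_apply]; omega
    have hxD : ∀ i y, x i y ≤ D i y := by
      intro i y; have := FleD (k + 1) hk i y; rw [hx, Matrix.sub_apply]; omega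
    have hid : X (k + 1) + x * B = X k + Θ * x := by
      have e1 := XE (k + 1) hk
      have e2 := XE k hk.le
      rw [hFx, Matrix.add_mul, Matrix.mul_add] at e1
      ext i y
      have f1 := congrFun (congrFun e1 i) y
      have f2 := congrFun (congrFun e2 i) y
      simp only [Matrix.add_apply] at f1 f2 ⊢
      omega
    have hxB : ∀ i y, (x * B) i y ≠ 0 → (D * B) i y ≠ 0 := by
      intro i y h h0
      have := mul_le_mul_left' (B := B) (hxD i) y
      omega
    have hXG : ∀ i y, G i y → (J γ β * B) i y + 1 ≤ X k i y := by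
      intro i y hg
      have h1 := keyG k hk.le i y hg
      have h2 := congrFun (congrFun (XE k hk.le) i) y
      rw [Matrix.add_apply] at h2
      omega
    have hCx : ∀ i y, Cst Θ B D i y → Cst Θ B x i y := by
      rintro i y ⟨k0, y0, h1, h2, h3, h4⟩
      refine ⟨k0, y0, h1, h2, h3, fun y' hy' => ?_⟩
      rcases Nat.mul_eq_zero.1 (h4 y' hy') with h | h
      · have := hxD i y'; rw [h] at this; rw [Nat.le_zero.1 this, zero_mul]
      · rw [h, mul_zero]
    refine greedy hid ?_ ?_
    · intro i y h
      rcases hC i y (hxB i y h) with h1 | h1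
      · left
        have h2 := hXG i y h1
        have h3 : (x * B) i y ≤ (J γ β * B) i y := mul_le_mul_left' (B := B) (fun y => hx1 i y) y
        omega
      · right; exact hCx i y h1
    · intro N i y hN hi hy hT hB hD
      by_contra hcon
      push Not at hcon
      have hcst : ∀ n, Cst Θ B D (i n) (y (n + 1)) := by
        intro n
        have h1 : (x * B) (i n) (y (n + 1)) ≠ 0 := by
          have := mul_entry_le x B (i n) (y n) (y (n + 1))
          have h2 := Nat.mul_pos (Nat.pos_of_ne_zero (hD n)) (Nat.pos_of_ne_zero (hB n))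
          omega
        rcases hC _ _ (hxB _ _ h1) with h | h
        · have := hXG _ _ h
          have := hcon n
          omega
        · exact h
      have hDD : ∀ n, D (i n) (y n) ≠ 0 := fun n => by
        have := hxD (i n) (y n); have := hD n; omega
      have hent : ∀ n, F k (i n) (y n) = s (i n) (y (n + 1)) + F k (i (n + 1)) (y (n + 1)) := by
        intro n
        obtain ⟨k0, y0, h1, h2, h3, h4⟩ := hcst n
        have hk0 : i (n + 1) = k0 := by
          by_contra hh; exact hT n (h2 _ hh)
        have hy0 : y n = y0 := by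
          by_contra hh
          exact (Nat.mul_ne_zero (hDD n) (hB n)) (h4 _ hh)
        have e := congrFun (congrFun (XE k hk.le) (i n)) (y (n + 1))
        simp only [Matrix.add_apply] at e
        rw [Cst.mul_left h1 h2, Cst.mul_right (D := D) h3 h4
          (fun y hy => by simp only [hF]; rw [hy]; simp), hcon n, zero_add] at e
        rw [hk0, hy0]
        exact e
      obtain ⟨n, hn⟩ := hL N i y hN hi hy hT hB hDD
      exact hn (periodic_zero hN (fun n => F k (i n) (y n)) (fun n => s (i n) (y (n + 1)))
        (fun n => by simp only [hi, hy]) hent n)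
  have main : ∀ k ≤ K, Fire Θ B s (F k) (X k) := by
    intro k
    induction k with
    | zero =>
      intro _
      have : X 0 = s := by simp only [hX]; rw [F0]; ext i y; simp
      rw [F0, this]
      exact Fire.refl _
    | succ k ih =>
      intro hk
      have h1 := (ih (by omega)).trans (stage k (by omega))
      have h2 : F k + (F (k + 1) - F k) = F (k + 1) := by
        ext i y; have := Fmono k i y; rw [Matrix.add_apply, Matrix.sub_apply]; omega
      rwa [h2] at h1
  have h1 := main K le_rfl
  have h2 : X K = q := by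
    have e := XE K le_rfl
    rw [FK] at e
    ext i y
    have e1 := congrFun (congrFun e i) y
    have e2 := congrFun (congrFun hq i) y
    simp only [Matrix.add_apply] at e1 e2
    omega
  rwa [FK, h2] at h1

end Pool.Agent.H15L
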