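import Pool.Agent.H15L.Core

/-!
# Diagonal blocks of shift equivalences and of chains
-/

set_option autoImplicit false
set_option linter.unusedSectionVars false
set_option linter.unusedVariables false

namespace Pool.Agent.H15L

open Matrix Pool.Agent.H812R2.SSE

/-- `(R, S)` is a shift equivalence of lag `l` from `X` to `Y` -/
structure SEm (X Y : Obj) (l : ℕ) (R : Matrix X.ι Y.ι ℕ) (S : Matrix Y.ι X.ι ℕ) : Prop where
  hl : 1 ≤ l
  m1 : R * S = X.M ^ l
  m2 : S * R = Y.M ^ l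
  c1 : X.M * R = R * Y.M
  c2 : S * X.M = Y.M * S

namespace SEm

variable {X Y Z : Obj} {l l' : ℕ} {R : Matrix X.ι Y.ι ℕ} {S : Matrix Y.ι X.ι ℕ}
  {R' : Matrix Y.ι Z.ι ℕ} {S' : Matrix Z.ι Y.ι ℕ}

theorem symm (h : SEm X Y l R S) : SEm Y X l S R := ⟨h.hl, h.m2, h.m1, h.c2.symm, h.c1.symm⟩

theorem p1 (h : SEm X Y l R S) (k : ℕ) : X.M ^ k * R = R * Y.M ^ k := semiconj_pow _ _ _ h.c1 k

theorem p2 (h : SEm X Y l R S) (k : ℕ) : Y.M ^ k * S = S * X.M ^ k := h.symm.p1 k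

theorem trans (h : SEm X Y l R S) (h' : SEm Y Z l' R' S') : SEm X Z (l + l') (R * R') (S' * S) := by
  refine ⟨by have := h.hl; omega, ?_, ?_, ?_, ?_⟩
  · calc R * R' * (S' * S) = R * (R' * S') * S := by simp only [Matrix.mul_assoc]
      _ = X.M ^ l' * R * S := by rw [h'.m1, h.p1]
      _ = X.M ^ (l + l') := by rw [Matrix.mul_assoc, h.m1, ← pow_add, add_comm]
  · calc S' * S * (R * R') = S' * (S * R) * R' := by simp only [Matrix.mul_assoc]
      _ = Z.M ^ l * S' * R' := by rw [h.m2, h'.p2]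
      _ = Z.M ^ (l + l') := by rw [Matrix.mul_assoc, h'.m2, ← pow_add]
  · rw [← Matrix.mul_assoc, h.c1, Matrix.mul_assoc, h'.c1, Matrix.mul_assoc]
  · rw [Matrix.mul_assoc, h.c2, ← Matrix.mul_assoc, h'.c2, Matrix.mul_assoc]

theorem self (X : Obj) : SEm X X 1 X.M 1 := ⟨le_rfl, by simp, by simp, rfl, by simp⟩

theorem raise (h : SEm X Y l R S) (t : ℕ) : SEm X Y (t + l) (X.M ^ t * R) S := by
  refine ⟨by have := h.hl; omega, ?_, ?_, ?_, h.c2⟩
  · rw [Matrix.mul_assoc, h.m1, ← pow_add]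
  · rw [← Matrix.mul_assoc, ← h.p2, Matrix.mul_assoc, h.m2, ← pow_add]
  · rw [← Matrix.mul_assoc, ← pow_succ', Matrix.mul_assoc, ← h.c1, ← Matrix.mul_assoc, ← pow_succ]

theorem of_elem {R : Matrix X.ι Y.ι ℕ} {S : Matrix Y.ι X.ι ℕ} (h1 : X.M = R * S)
    (h2 : Y.M = S * R) : SEm X Y 1 R S :=
  ⟨le_rfl, by rw [pow_one, h1], by rw [pow_one, h2], by rw [h1, h2, Matrix.mul_assoc],
    by rw [h1, h2, Matrix.mul_assoc]⟩

end SEm

/-- linked by `R` -/
def Lk (X : Obj) {Y : Obj} (R : Matrix X.ι Y.ι ℕ) (a : X.ι) (b : Y.ι) : Prop :=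
  ∃ k : ℕ, (X.M ^ k * R : Matrix X.ι Y.ι ℕ) a b ≠ 0

theorem one_inj {α β : Type} [DecidableEq α] [DecidableEq β] (f : β → α)
    (hf : Function.Injective f) (i j : β) : (1 : Matrix α α ℕ) (f i) (f j) = (1 : Matrix β β ℕ) i j := by
  rw [Matrix.one_apply, Matrix.one_apply]
  by_cases h : i = j
  · rw [if_pos h, if_pos (congrArg f h)]
  · rw [if_neg h, if_neg (fun h' => h (hf h'))]

section link

variable {X Y Z : Obj} {l l' : ℕ} {R : Matrix X.ι Y.ι ℕ} {S : Matrix Y.ι X.ι ℕ}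
  {R' : Matrix Y.ι Z.ι ℕ} {S' : Matrix Z.ι Y.ι ℕ}

theorem Lk.left {a a' : X.ι} {b : Y.ι} (h : Rch X.M a a') (h' : Lk X R a' b) : Lk X R a b := by
  obtain ⟨k, hk⟩ := h
  obtain ⟨j, hj⟩ := h'
  refine ⟨k + j, ?_⟩
  rw [pow_add, Matrix.mul_assoc]
  exact ne_mul hk hj

theorem Lk.trans (h : SEm X Y l R S) {a : X.ι} {b : Y.ι} {c : Z.ι} (h1 : Lk X R a b)
    (h2 : Lk Y R' b c) : Lk X (R * R') a c := by
  obtain ⟨k, hk⟩ := h1
  obtain ⟨j, hj⟩ := h2
  refine ⟨k + j, ?_⟩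
  have e : X.M ^ (k + j) * (R * R') = (X.M ^ k * R) * (Y.M ^ j * R') := by
    rw [pow_add]
    calc X.M ^ k * X.M ^ j * (R * R') = X.M ^ k * (X.M ^ j * R) * R' := by
          simp only [Matrix.mul_assoc]
      _ = _ := by rw [h.p1]; simp only [Matrix.mul_assoc]
  rw [e]
  exact ne_mul hk hj

theorem Lk.rch {a b : X.ι} {n : ℕ} (h : Lk X (Y := X) (X.M ^ n) a b) : Rch X.M a b := by
  obtain ⟨k, hk⟩ := h
  exact ⟨k + n, by rw [pow_add]; exact hk⟩

theorem Lk.loop (h : SEm X Y l R S) {a a' : X.ι} {b : Y.ι} (h1 : Lk X R a b) (h2 : Lk Y S b a') :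
    Rch X.M a a' := by
  have h3 := Lk.trans h h1 h2
  rw [h.m1] at h3
  exact h3.rch

theorem Lk.right (h : SEm X Y l R S) {a : X.ι} {b b' : Y.ι} (h1 : Lk X R a b)
    (h2 : Rch Y.M b b') : Lk X R a b' := by
  obtain ⟨k, hk⟩ := h1
  obtain ⟨j, hj⟩ := h2
  refine ⟨j + k, ?_⟩
  have e : X.M ^ (j + k) * R = (X.M ^ k * R) * Y.M ^ j := by
    rw [add_comm, pow_add, Matrix.mul_assoc, h.p1, Matrix.mul_assoc]
  rw [e]
  exact ne_mul hk hj

theorem Lk.of {a : X.ι} {b : Y.ι} (h : R a b ≠ 0) : Lk X R a b := ⟨0, by simpa using h⟩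

/-- the restriction to the components of `a` and `b` -/
def cm {X Y : Obj} (R : Matrix X.ι Y.ι ℕ) (a : X.ι) (b : Y.ι) :
    Matrix (compO X.M a).ι (compO Y.M b).ι ℕ := fun u v => R u.1 v.1

theorem sum_comp {α : Type} [Fintype α] [DecidableEq α] (A : Matrix α α ℕ) (b : α) (F : α → ℕ)
    (hF : ∀ x, F x ≠ 0 → Mut A b x) : ∑ x, F x = ∑ x : (compO A b).ι, F x.1 := by
  classical
  symm
  change ∑ x : {j // Mut A b j}, F x.1 = ∑ x, F x
  have e : @Finset.univ {j // Mut A b j} (compO A b).fin =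
      @Finset.univ {j // Mut A b j} (Subtype.fintype _) := by
    congr 1
  have e2 : ∑ x : {j // Mut A b j}, F x.1 = ∑ x ∈ Finset.univ.filter (fun x => Mut A b x), F x := by
    rw [Finset.sum_subtype (p := fun x => Mut A b x) (Finset.univ.filter (fun x => Mut A b x))
      (fun x => by simp) F]
  have e3 : ∑ x ∈ Finset.univ.filter (fun x => Mut A b x), F x = ∑ x, F x := by
    refine Finset.sum_subset (Finset.filter_subset _ _) ?_
    intro x _ hx
    by_contra h0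
    exact hx (Finset.mem_filter.2 ⟨Finset.mem_univ _, hF x h0⟩)
  rw [← e3, ← e2]

/-- the diagonal blocks multiply -/
theorem cm_mul (h : SEm X Y l R S) (h' : SEm Y Z l' R' S') {a : X.ι} {b : Y.ι} {c : Z.ι}
    (l2 : Lk Y S b a) (l4 : Lk Z S' c b) : cm (R * R') a c = cm R a b * cm R' b c := by
  ext i k
  rw [Matrix.mul_apply]
  change (R * R') i.1 k.1 = ∑ j : (compO Y.M b).ι, R i.1 j.1 * R' j.1 k.1
  rw [Matrix.mul_apply]
  refine sum_comp Y.M b (fun x => R i.1 x * R' x k.1) ?_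
  intro x hx
  have hR : R i.1 x ≠ 0 := fun h0 => hx (by simp only [h0, zero_mul])
  have hR' : R' x k.1 ≠ 0 := fun h0 => hx (by simp only [h0, mul_zero])
  constructor
  · -- b → a → i → x
    exact Lk.loop h.symm l2 (Lk.left i.2.1 (Lk.of hR))
  · -- x → k → c → b
    exact Lk.loop h' (Lk.right h' (Lk.of hR') k.2.2) l4

theorem cm_pow (X : Obj) (a : X.ι) (k : ℕ) :
    cm (X := X) (Y := X) (X.M ^ k) a a = (compO X.M a).M ^ k := by
  induction k with
  | zero =>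
    ext i j
    exact one_inj (fun u : (compO X.M a).ι => u.1) Subtype.val_injective i j
  | succ k ih =>
    ext i j
    rw [pow_succ (compO X.M a).M, Matrix.mul_apply, ← ih]
    change (X.M ^ (k + 1)) i.1 j.1 = ∑ x : (compO X.M a).ι, (X.M ^ k) i.1 x.1 * X.M x.1 j.1
    rw [pow_succ, Matrix.mul_apply]
    refine sum_comp X.M a (fun x => (X.M ^ k) i.1 x * X.M x j.1) ?_
    intro x hx
    have h1 : (X.M ^ k) i.1 x ≠ 0 := fun h0 => hx (by simp only [h0, zero_mul])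
    have h2 : X.M x j.1 ≠ 0 := fun h0 => hx (by simp only [h0, mul_zero])
    exact ⟨i.2.1.trans ⟨k, h1⟩, (Rch.edge h2).trans j.2.2⟩

/-- the diagonal blocks of a shift equivalence are shift equivalences -/
theorem SEm.block (h : SEm X Y l R S) {a : X.ι} {b : Y.ι} (l1 : Lk X R a b) (l2 : Lk Y S b a) :
    SEm (compO X.M a) (compO Y.M b) l (cm R a b) (cm S b a) := by
  have lX : Lk X (Y := X) (1 : Matrix X.ι X.ι ℕ) a a := Lk.of (by simp)
  have lY : Lk Y (Y := Y) (1 : Matrix Y.ι Y.ι ℕ) b b := Lk.of (by simp)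
  have cX := cm_pow X a 1
  have cY := cm_pow Y b 1
  rw [pow_one, pow_one] at cX cY
  refine ⟨h.hl, ?_, ?_, ?_, ?_⟩
  · rw [← cm_mul h h.symm l2 l1, h.m1, cm_pow]
  · rw [← cm_mul h.symm h l1 l2, h.m2, cm_pow]
  · rw [← cX, ← cY, ← cm_mul (SEm.self X) h lX l2, ← cm_mul h (SEm.self Y) l2 lY, h.c1]
  · rw [← cX, ← cY, ← cm_mul h.symm (SEm.self X) l1 lX, ← cm_mul (SEm.self Y) h.symm lY l1, h.c2]

/-- the block of `X^t R` -/
theorem cm_raise (h : SEm X Y l R S) {a : X.ι} {b : Y.ι} (l1 : Lk X R a b) (l2 : Lk Y S b a)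
    (t : ℕ) : cm (X.M ^ t * R) a b = (compO X.M a).M ^ t * cm R a b := by
  induction t with
  | zero => rw [pow_zero, pow_zero, Matrix.one_mul, Matrix.one_mul]
  | succ t ih =>
    have lX : Lk X (Y := X) (1 : Matrix X.ι X.ι ℕ) a a := Lk.of (by simp)
    have cX := cm_pow X a 1
    rw [pow_one, pow_one] at cX
    rw [pow_succ', Matrix.mul_assoc, cm_mul (SEm.self X) (h.raise t) lX l2, ih, cX, pow_succ',
      Matrix.mul_assoc]

/-- changing the base points -/
theorem ch_base {X Y : Obj} {ρ : Matrix X.ι Y.ι ℕ} {a a' : X.ι} {b b' : Y.ι} (ha : Mut X.M a a')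
    (hb : Mut Y.M b b') {t : ℕ} (h : CH (compO X.M a) (compO Y.M b) ((compO X.M a).M ^ t * cm ρ a b)) :
    CH (compO X.M a') (compO Y.M b') ((compO X.M a').M ^ t * cm ρ a' b') := by
  let ε : {j // Mut X.M a' j} ≃ {j // Mut X.M a j} :=
    { toFun := fun j => ⟨j.1, ha.trans j.2⟩
      invFun := fun j => ⟨j.1, ha.symm.trans j.2⟩
      left_inv := fun j => rfl
      right_inv := fun j => rfl }
  let η : {j // Mut Y.M b' j} ≃ {j // Mut Y.M b j} :=
    { toFun := fun j => ⟨j.1, hb.trans j.2⟩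
      invFun := fun j => ⟨j.1, hb.symm.trans j.2⟩
      left_inv := fun j => rfl
      right_inv := fun j => rfl }
  exact Eqv.transportR (X := compO X.M a') (Y := compO Y.M b') (X' := compO X.M a)
    (Y' := compO Y.M b) ⟨ε, fun i j => rfl⟩ ⟨η, fun i j => rfl⟩ (fun i j => rfl) h

/-- splitting a link -/
theorem Lk.split {a : X.ι} {c : Z.ι} (h : Lk X (R * R') a c) :
    ∃ b, Lk X R a b ∧ R' b c ≠ 0 := by
  obtain ⟨k, hk⟩ := h
  rw [← Matrix.mul_assoc] at hk
  obtain ⟨b, h1, h2⟩ := ex_mul hk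
  exact ⟨b, ⟨k, h1⟩, h2⟩

theorem Lnk.split (h : SEm X Y l R S) (h' : SEm Y Z l' R' S') {a : X.ι} {c : Z.ι}
    (h1 : Lk X (R * R') a c) (h2 : Lk Z (S' * S) c a) :
    ∃ b, Lk X R a b ∧ Lk Y S b a ∧ Lk Y R' b c ∧ Lk Z S' c b := by
  obtain ⟨b, i1, i2⟩ := h1.split
  obtain ⟨b', i3, i4⟩ := h2.split
  -- b → c → b'
  have r1 : Rch Y.M b b' := Lk.loop h' (Lk.of i2) i3
  -- b' → a → b
  have r2 : Rch Y.M b' b := Lk.loop h.symm (Lk.of i4) i1
  exact ⟨b, i1, Lk.left r1 (Lk.of i4), Lk.of i2, Lk.right h'.symm i3 r2⟩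

/-- **Restriction of chains to components.** -/
theorem CH.restrict {X Z : Obj} {ρ : Matrix X.ι Z.ι ℕ} (h : CH X Z ρ) :
    ∀ (l : ℕ) (T : Matrix Z.ι X.ι ℕ), SEm X Z l ρ T → ∀ (a : X.ι) (c : Z.ι), Lk X ρ a c →
      Lk Z T c a → CH (compO X.M a) (compO Z.M c) (cm ρ a c) := by
  induction h with
  | refl X =>
    intro l T hT a c h1 h2
    have hT' : T = X.M ^ l := by rw [← hT.m1, Matrix.one_mul]
    have r1 : Rch X.M a c := by
      rw [← pow_zero X.M] at h1
      exact h1.rch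
    have r2 : Rch X.M c a := by
      rw [hT'] at h2
      exact h2.rch
    let ε : {j // Mut X.M a j} ≃ {j // Mut X.M c j} :=
      { toFun := fun j => ⟨j.1, Mut.trans ⟨r2, r1⟩ j.2⟩
        invFun := fun j => ⟨j.1, Mut.trans ⟨r1, r2⟩ j.2⟩
        left_inv := fun j => rfl
        right_inv := fun j => rfl }
    have E : CH (compO X.M a) (compO X.M c)
      ((1 : Matrix (compO X.M c).ι (compO X.M c).ι ℕ).submatrix ε id) :=
      Eqv.ch (X := compO X.M a) (X' := compO X.M c) ⟨ε, fun i j => rfl⟩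
    convert E using 1
    ext i j
    exact one_inj (fun u : (compO X.M c).ι => u.1) Subtype.val_injective (ε i) j
  | step X Y Z R S ρ e1 e2 c ih =>
    intro l T hT a z h1 h2
    have hE := SEm.of_elem e1 e2
    obtain ⟨cρ, -⟩ := c.rev'
    -- closed path at a
    have hp : ∃ p, 1 ≤ p ∧ (X.M ^ p) a a ≠ 0 := by
      obtain ⟨k, hk⟩ := h1
      obtain ⟨m, hm⟩ := h2
      refine ⟨k + m + l, by have := hT.hl; omega, ?_⟩
      have e : X.M ^ (k + m + l) = (X.M ^ k * (R * ρ)) * (Z.M ^ m * T) := by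
        rw [pow_add, pow_add, ← hT.m1]
        calc X.M ^ k * X.M ^ m * (R * ρ * T) = X.M ^ k * (X.M ^ m * (R * ρ)) * T := by
              simp only [Matrix.mul_assoc]
          _ = _ := by rw [hT.p1]; simp only [Matrix.mul_assoc]
      rw [e]
      exact ne_mul hk hm
    obtain ⟨p, hp, hpa⟩ := hp
    obtain ⟨k0, hk0⟩ := h1
    obtain ⟨m, hm⟩ := h2
    -- pad
    have hk1 : (X.M ^ (p + k0) * (R * ρ)) a z ≠ 0 := by
      rw [pow_add, Matrix.mul_assoc]
      exact ne_mul hpa hk0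
    rw [← Matrix.mul_assoc] at hk1
    obtain ⟨b, hb1, hb2⟩ := ex_mul hk1
    -- the partner of ρ
    have hTc : ∀ k, Z.M ^ k * T = T * X.M ^ k := hT.p2
    have cρ' : ∀ k, Y.M ^ k * ρ = ρ * Z.M ^ k := fun k => semiconj_pow _ _ _ cρ k
    have q1 : Y.M * (ρ * T) = Y.M ^ l * S := by
      calc Y.M * (ρ * T) = S * (R * ρ * T) := by rw [e2]; simp only [Matrix.mul_assoc]
        _ = Y.M ^ l * S := by rw [hT.m1, hE.p2]
    have hT' : SEm Y Z (l + 1) ρ (T * X.M * R) := by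
      refine ⟨by omega, ?_, ?_, cρ, ?_⟩
      · calc ρ * (T * X.M * R) = ρ * (T * X.M) * R := by simp only [Matrix.mul_assoc]
          _ = ρ * Z.M * T * R := by rw [hT.c2]; simp only [Matrix.mul_assoc]
          _ = Y.M * (ρ * T) * R := by rw [← cρ]; simp only [Matrix.mul_assoc]
          _ = Y.M ^ (l + 1) := by rw [q1, Matrix.mul_assoc, ← e2, pow_succ]
      · calc T * X.M * R * ρ = Z.M * (T * (R * ρ)) := by
              rw [hT.c2]; simp only [Matrix.mul_assoc]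
          _ = Z.M ^ (l + 1) := by rw [hT.m2, pow_succ']
      · calc T * X.M * R * Y.M = T * X.M * (X.M * R) := by rw [hE.c1, Matrix.mul_assoc]
          _ = T * X.M * X.M * R := by simp only [Matrix.mul_assoc]
          _ = Z.M * T * X.M * R := by rw [← hT.c2]
          _ = Z.M * (T * X.M * R) := by simp only [Matrix.mul_assoc]
    -- links
    have L1 : Lk X R a b := ⟨_, hb1⟩
    have L3 : Lk Y ρ b z := Lk.of hb2
    have L4 : Lk Z (T * X.M * R) z b := by
      refine ⟨m + (p + k0 - 1), ?_⟩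
      have e : Z.M ^ (m + (p + k0 - 1)) * (T * X.M * R) = (Z.M ^ m * T) * (X.M ^ (p + k0) * R) := by
        rw [pow_add]
        calc Z.M ^ m * Z.M ^ (p + k0 - 1) * (T * X.M * R)
            = Z.M ^ m * (Z.M ^ (p + k0 - 1) * T) * (X.M * R) := by simp only [Matrix.mul_assoc]
          _ = Z.M ^ m * T * (X.M ^ (p + k0 - 1) * X.M * R) := by
              rw [hTc]; simp only [Matrix.mul_assoc]
          _ = _ := by
              rw [← pow_succ]
              congr 3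
              omega
      rw [e]
      exact ne_mul hm hb1
    have hbb : ∃ p', 1 ≤ p' ∧ (Y.M ^ p') b b ≠ 0 := by
      obtain ⟨j, hj⟩ := L4
      refine ⟨j + (l + 1), by omega, ?_⟩
      have e : Y.M ^ (j + (l + 1)) = ρ * (Z.M ^ j * (T * X.M * R)) := by
        rw [pow_add, ← hT'.m1, ← Matrix.mul_assoc, cρ', Matrix.mul_assoc]
      rw [e]
      exact ne_mul hb2 hj
    obtain ⟨p', hp', hbb⟩ := hbb
    have L2 : Lk Y S b a := by
      refine ⟨p' - 1 + m + l, ?_⟩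
      have e : Y.M ^ (p' - 1 + m + l) * S = Y.M ^ p' * (ρ * (Z.M ^ m * T)) := by
        calc Y.M ^ (p' - 1 + m + l) * S = Y.M ^ (p' - 1 + m) * (Y.M * (ρ * T)) := by
              rw [q1, pow_add _ (p' - 1 + m), Matrix.mul_assoc]
          _ = Y.M ^ (p' - 1 + m + 1) * (ρ * T) := by rw [pow_succ, Matrix.mul_assoc]
          _ = Y.M ^ (p' + m) * (ρ * T) := by congr 2; omega
          _ = Y.M ^ p' * (Y.M ^ m * ρ) * T := by rw [pow_add]; simp only [Matrix.mul_assoc]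
          _ = _ := by rw [cρ']; simp only [Matrix.mul_assoc]
      rw [e]
      exact ne_mul hbb (ne_mul hb2 hm)
    have E1 := hE.block L1 L2
    have C1 : CH (compO X.M a) (compO Y.M b) (cm R a b) :=
      CH.single (X := compO X.M a) (Y := compO Y.M b) (cm R a b) (cm S b a)
        (by rw [E1.m1, pow_one]) (by rw [E1.m2, pow_one])
    have C2 := ih (l + 1) _ hT' b z L3 L4
    have C3 := C1.trans C2
    rw [cm_mul hE hT' L2 L4]
    exact C3

end link

end Pool.Agent.H15L
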