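import Pool.Agent.H15L.Grow

/-!
# Towers of firing problems with live supports are solvable
-/

set_option autoImplicit false
set_option linter.unusedSectionVars false

namespace Pool.Agent.H15L

open Matrix Pool.Agent.H812R2.SSE Filter

variable {γ β : Type} [Fintype γ] [DecidableEq γ] [Fintype β] [DecidableEq β]
variable {Θ : Matrix γ γ ℕ} {B : Matrix β β ℕ}

theorem dv_ge {L : ℕ} (hL : 0 < L) (a b c : ℕ) (u : Matrix γ β ℕ) (i : γ) (x : β)
    (h : L * c + L * Tm Θ B a b (J γ β) i x ≤ Tm Θ B a b u i x) :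
    c ≤ Tm Θ B a b (dv L u) i x := by
  have h1 : Tm Θ B a b u i x ≤ Tm Θ B a b (L • dv L u + L • J γ β) i x := by
    refine Tm_mono (fun k y => ?_) i x
    rw [Matrix.add_apply, Matrix.smul_apply, Matrix.smul_apply, smul_eq_mul, smul_eq_mul]
    have := Nat.mod_add_div (u k y) L
    have h2 := Nat.mod_lt (u k y) hL
    simp only [dv, J]
    omega
  rw [Tm_add, Tm_smul, Tm_smul, Matrix.add_apply, Matrix.smul_apply, Matrix.smul_apply,
    smul_eq_mul, smul_eq_mul] at h1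
  have h2 : L * c ≤ L * Tm Θ B a b (dv L u) i x := by omega
  exact Nat.le_of_mul_le_mul_left h2 hL

theorem walk {δ : Type} [Fintype δ] [DecidableEq δ] {M : Matrix δ δ ℕ} {i : ℕ → δ}
    (h : ∀ n, M (i n) (i (n + 1)) ≠ 0) (n d : ℕ) : (M ^ d) (i n) (i (n + d)) ≠ 0 := by
  induction d with
  | zero => simp
  | succ d ih =>
    rw [← add_assoc, pow_succ]
    exact ne_mul ih (h _)

theorem per_mul {δ : Type} {i : ℕ → δ} {N : ℕ} (h : ∀ n, i (n + N) = i n) (k : ℕ) :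
    i (N * k) = i 0 := by
  induction k with
  | zero => simp
  | succ k ih => rw [Nat.mul_succ, h, ih]

/-- the support condition -/
def Sup (Θ : Matrix γ γ ℕ) (B : Matrix β β ℕ) (L t : ℕ) (e : Matrix γ β ℕ) (i : γ) (y : β) :
    Prop := ∃ a b, a + b + 1 ≡ t [MOD L] ∧ Tm Θ B a b e i y ≠ 0

variable {s q Y : ℕ → Matrix γ β ℕ}

theorem grow' {L : ℕ} (hL : 0 < L) (hΘ : ∀ i, (Θ ^ L) i i ≠ 0) (hB : ∀ x, (B ^ L) x x ≠ 0)
    {e : Matrix γ β ℕ} {i : γ} {x : β} {t : ℕ} (h0 : ∃ y, Sup Θ B L t e i y ∧ B y x ≠ 0)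
    (ht : (∃ N, 2 ≤ (Θ ^ N) i i) ∨ (∃ N, 2 ≤ (B ^ N) x x) ∨
      ∃ y, Sup Θ B L t e i y ∧ B y x ≠ 0 ∧ ¬ Rch B x y) :
    ∃ α b0, α + b0 ≡ t [MOD L] ∧ ∀ M, ∃ n1, ∀ a' b', n1 ≤ a' → n1 ≤ b' → a' ≡ α [MOD L] →
      b' ≡ b0 [MOD L] → M ≤ Tm Θ B a' b' e i x := by
  have h1 : ∀ {a b : ℕ} {y : β}, Tm Θ B a b e i y ≠ 0 → B y x ≠ 0 → Tm Θ B a (b + 1) e i x ≠ 0 := by
    intro a b y h h'
    rw [← Tm_mulB]
    exact ne_mul h h'
  rcases ht with ht | ht | ⟨y, ⟨a, b, h2, h3⟩, h4, h5⟩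
  · obtain ⟨y, ⟨a, b, h2, h3⟩, h4⟩ := h0
    exact ⟨a, b + 1, h2, grow hL hΘ hB (h1 h3 h4) (Or.inl ht)⟩
  · obtain ⟨y, ⟨a, b, h2, h3⟩, h4⟩ := h0
    exact ⟨a, b + 1, h2, grow hL hΘ hB (h1 h3 h4) (Or.inr (Or.inl ht))⟩
  · exact ⟨a, b + 1, h2, grow hL hΘ hB (h1 h3 h4) (Or.inr (Or.inr ⟨y, b, rfl, h3, h4, h5⟩))⟩

theorem sh_large {L : ℕ} (hL : 0 < L) {e : Matrix γ β ℕ} {i : γ} {x : β} {t : ℕ} (c : ℕ)
    (h : ∃ α b0, α + b0 ≡ t [MOD L] ∧ ∀ M, ∃ n1, ∀ a' b', n1 ≤ a' → n1 ≤ b' → a' ≡ α [MOD L] →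
      b' ≡ b0 [MOD L] → M ≤ Tm Θ B a' b' e i x) :
    ∀ᶠ n in atTop, c ≤ sh Θ B L (Tm Θ B (n * L) (n * L + L + t) e) i x := by
  obtain ⟨α, b0, h1, h2⟩ := h
  set j := α % L with hj
  have hjL : j < L := Nat.mod_lt _ hL
  obtain ⟨n1, hn1⟩ := h2 (L * c + L * Tm Θ B j (L - j) (J γ β) i x)
  filter_upwards [eventually_ge_atTop n1] with n hn
  have hnL : n ≤ n * L := Nat.le_mul_of_pos_right _ hL
  have e1 : n * L + j ≡ α [MOD L] := by
    rw [hj]
    unfold Nat.ModEq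
    rw [Nat.add_mod, Nat.mul_mod_left, zero_add, Nat.mod_mod, Nat.mod_mod]
  have h3 := hn1 (j + n * L) (L - j + (n * L + L + t)) (by omega) (by omega)
    (by rw [add_comm]; exact e1) (by
      have e2 : (n * L + j) + (L - j + (n * L + L + t)) ≡ α + b0 [MOD L] := by
        have e3 : (n * L + j) + (L - j + (n * L + L + t)) = t + L * (n + 2 + n) := by
          have : j + (L - j) = L := by omega
          calc (n * L + j) + (L - j + (n * L + L + t)) = (j + (L - j)) + (n * L + n * L + L + t) := by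
                ring
            _ = _ := by rw [this]; ring
        rw [e3]
        exact ((modEq_add_mul _ _ _ _).2 rfl).trans h1.symm
      exact Nat.ModEq.add_left_cancel e1 e2)
  rw [← Tm_Tm] at h3
  have h4 := dv_ge hL _ _ _ _ _ _ h3
  unfold sh
  rw [Matrix.add_apply, Matrix.sum_apply]
  have h5 := Finset.single_le_sum
    (f := fun j => Tm Θ B j (L - j) (dv L (Tm Θ B (n * L) (n * L + L + t) e)) i x)
    (fun _ _ => Nat.zero_le _) (Finset.mem_range.2 hjL)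
  omega

theorem qh_large {L : ℕ} (hL : 0 < L) {e : Matrix γ β ℕ} {i : γ} {x : β} {t : ℕ} (c : ℕ)
    (h : ∃ α b0, α + b0 ≡ t [MOD L] ∧ ∀ M, ∃ n1, ∀ a' b', n1 ≤ a' → n1 ≤ b' → a' ≡ α [MOD L] →
      b' ≡ b0 [MOD L] → M ≤ Tm Θ B a' b' e i x) :
    ∀ᶠ n in atTop, c ≤ qh Θ B L (Tm Θ B (n * L + L + t) (n * L) e) i x := by
  obtain ⟨α, b0, h1, h2⟩ := h
  set j := b0 % L with hj
  have hjL : j < L := Nat.mod_lt _ hL
  obtain ⟨n1, hn1⟩ := h2 (L * c + L * Tm Θ B (L - j) j (J γ β) i x)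
  filter_upwards [eventually_ge_atTop n1] with n hn
  have hnL : n ≤ n * L := Nat.le_mul_of_pos_right _ hL
  have e1 : n * L + j ≡ b0 [MOD L] := by
    rw [hj]
    unfold Nat.ModEq
    rw [Nat.add_mod, Nat.mul_mod_left, zero_add, Nat.mod_mod, Nat.mod_mod]
  have h3 := hn1 (L - j + (n * L + L + t)) (j + n * L) (by omega) (by omega) (by
      have e2 : (L - j + (n * L + L + t)) + (n * L + j) ≡ α + b0 [MOD L] := by
        have e3 : (L - j + (n * L + L + t)) + (n * L + j) = t + L * (n + 2 + n) := by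
          have : j + (L - j) = L := by omega
          calc (L - j + (n * L + L + t)) + (n * L + j) = (j + (L - j)) + (n * L + n * L + L + t) := by
                ring
            _ = _ := by rw [this]; ring
        rw [e3]
        exact ((modEq_add_mul _ _ _ _).2 rfl).trans h1.symm
      exact Nat.ModEq.add_right_cancel e1 e2) (by rw [add_comm]; exact e1)
  rw [← Tm_Tm] at h3
  have h4 := dv_ge hL _ _ _ _ _ _ h3
  unfold qh
  rw [Matrix.add_apply, Matrix.sum_apply]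
  have h5 := Finset.single_le_sum
    (f := fun j => Tm Θ B (L - j) j (dv L (Tm Θ B (n * L + L + t) (n * L) e)) i x)
    (fun _ _ => Nat.zero_le _) (Finset.mem_range.2 hjL)
  omega

theorem sh_ne {L : ℕ} (hL : 0 < L) {u : Matrix γ β ℕ} {i : γ} {x : β}
    (h : Tm Θ B 0 L u i x ≠ 0) : sh Θ B L u i x ≠ 0 := by
  intro h0
  apply h
  unfold sh at h0
  rw [Matrix.add_apply, Matrix.sum_apply] at h0
  have h1 : Tm Θ B 0 L (md L u) i x = 0 := by omega
  have h2 := Finset.single_le_sum (f := fun j => Tm Θ B j (L - j) (dv L u) i x)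
    (fun _ _ => Nat.zero_le _) (Finset.mem_range.2 hL)
  simp only [Nat.sub_zero] at h2
  have h3 : Tm Θ B 0 L (dv L u) i x = 0 := by omega
  rw [← divmod L u, Tm_add, Tm_smul, Matrix.add_apply, Matrix.smul_apply, h1, h3]
  simp

/-- **The main theorem on towers.** -/
theorem Tower.fire (T : Tower Θ B s q Y) {L : ℕ} (hL : 0 < L) (hΘ : ∀ i, (Θ ^ L) i i ≠ 0)
    (hB : ∀ x, (B ^ L) x x ≠ 0) (hirr : ∀ i j, Rch Θ i j)
    (hsup : ∀ t i y, Y t i y ≠ 0 → Sup Θ B L t (s 0) i y ∧ Sup Θ B L t (q 0) i y) (t : ℕ) :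
    ∃ t', t ≤ t' ∧ Fire Θ B (s t') (Y t') (q t') := by
  classical
  obtain ⟨p, hp⟩ := eventually_ne Θ hL hΘ
  obtain ⟨r, hr⟩ := eventually_ne B hL hB
  set S : γ → β → Prop := fun i y => Sup Θ B L t (s 0) i y ∧ Sup Θ B L t (q 0) i y with hS
  set G : γ → β → Prop := fun i x => (∃ y, S i y ∧ B y x ≠ 0) ∧
    ((∃ N, 2 ≤ (Θ ^ N) i i) ∨ (∃ N, 2 ≤ (B ^ N) x x) ∨ ∃ y, S i y ∧ B y x ≠ 0 ∧ ¬ Rch B x y)
    with hG
  have hgs : ∀ i x, ∀ᶠ n in atTop, G i x → (Θ * J γ β) i x + (J γ β * B) i x + 1 ≤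
      sh Θ B L (Tm Θ B (n * L) (n * L + L + t) (s 0)) i x := by
    intro i x
    by_cases h : G i x
    · obtain ⟨⟨y, h1, h2⟩, h3⟩ := h
      have h4 := sh_large (Θ := Θ) (B := B) hL ((Θ * J γ β) i x + (J γ β * B) i x + 1)
        (grow' hL hΘ hB (e := s 0) (i := i) (x := x) (t := t) ⟨y, h1.1, h2⟩ (by
          rcases h3 with h3 | h3 | ⟨y, h5, h6, h7⟩
          · exact Or.inl h3
          · exact Or.inr (Or.inl h3)
          · exact Or.inr (Or.inr ⟨y, h5.1, h6, h7⟩)))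
      filter_upwards [h4] with n hn _
      exact hn
    · exact Eventually.of_forall fun n h' => absurd h' h
  have hgq : ∀ i x, ∀ᶠ n in atTop, G i x → (Θ * J γ β) i x + (J γ β * B) i x + 1 ≤
      qh Θ B L (Tm Θ B (n * L + L + t) (n * L) (q 0)) i x := by
    intro i x
    by_cases h : G i x
    · obtain ⟨⟨y, h1, h2⟩, h3⟩ := h
      have h4 := qh_large (Θ := Θ) (B := B) hL ((Θ * J γ β) i x + (J γ β * B) i x + 1)
        (grow' hL hΘ hB (e := q 0) (i := i) (x := x) (t := t) ⟨y, h1.2, h2⟩ (by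
          rcases h3 with h3 | h3 | ⟨y, h5, h6, h7⟩
          · exact Or.inl h3
          · exact Or.inr (Or.inl h3)
          · exact Or.inr (Or.inr ⟨y, h5.2, h6, h7⟩)))
      filter_upwards [h4] with n hn _
      exact hn
    · exact Eventually.of_forall fun n h' => absurd h' h
  obtain ⟨n, hn1, hn2, hn3⟩ := ((eventually_all.2 fun i => eventually_all.2 (hgs i)).and
    ((eventually_all.2 fun i => eventually_all.2 (hgq i)).and
      (eventually_ge_atTop (p + r)))).exists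
  have hnL : n ≤ n * L := Nat.le_mul_of_pos_right _ hL
  obtain ⟨D, hD1, hD2, hD3⟩ := T.assemble L t (n * L) (n * L)
  have es : Tm Θ B (n * L) (n * L + L) (s t) = Tm Θ B (n * L) (n * L + L + t) (s 0) := by
    have := T.s_add 0 t
    rw [zero_add] at this
    rw [this, Tm_Tm, add_zero]
  have eq : Tm Θ B (n * L + L) (n * L) (q t) = Tm Θ B (n * L + L + t) (n * L) (q 0) := by
    have := T.q_add 0 t
    rw [zero_add] at this
    rw [this, Tm_Tm, add_zero]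
  rw [es, eq] at hD1 hD3
  have hDS : ∀ i y, D i y ≠ 0 → S i y := by
    intro i y h
    have h1 : Tm Θ B (n * L) (n * L) (Y (t + L + L)) i y ≠ 0 := by
      have := hD2 i y; omega
    obtain ⟨k, z, h2, h3, h4⟩ := Tm_ex h1
    obtain ⟨⟨a, b, ha, hb⟩, ⟨a', b', ha', hb'⟩⟩ := hsup _ _ _ h3
    have key : ∀ a b, a + b + 1 ≡ t + L + L [MOD L] → (n * L + a) + (n * L + b) + 1 ≡ t [MOD L] := by
      intro a b hab
      have e1 : (n * L + a) + (n * L + b) + 1 = (a + b + 1) + L * (2 * n) := by ring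
      rw [e1]
      refine ((modEq_add_mul _ _ _ _).2 rfl).trans (hab.trans ?_)
      have e2 : t + L + L = t + L * 2 := by ring
      rw [e2]
      exact (modEq_add_mul _ _ _ _).2 rfl
    have key2 : ∀ (e : Matrix γ β ℕ) a b, Tm Θ B a b e k z ≠ 0 →
        Tm Θ B (n * L + a) (n * L + b) e i y ≠ 0 := by
      intro e a b hab
      rw [← Tm_Tm]
      exact Tm_ne h2 hab h4
    exact ⟨⟨_, _, key a b ha, key2 _ _ _ hb⟩, ⟨_, _, key a' b' ha', key2 _ _ _ hb'⟩⟩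
  refine ⟨t + L + L + n * L + n * L, by omega, hD3 ?_⟩
  refine interp hD1 G (fun i x hg => ⟨hn1 i x hg, hn2 i x hg⟩) ?_ ?_
  · intro i x hDB
    obtain ⟨y, h1, h2⟩ := ex_mul hDB
    by_cases hg : G i x
    · exact Or.inl hg
    · right
      have hne : ¬ ((∃ N, 2 ≤ (Θ ^ N) i i) ∨ (∃ N, 2 ≤ (B ^ N) x x) ∨
          ∃ y, S i y ∧ B y x ≠ 0 ∧ ¬ Rch B x y) := fun h => hg ⟨⟨y, hDS i y h1, h2⟩, h⟩
      push Not at hne
      obtain ⟨g1, g2, g3⟩ := hne
      rcases dich hL hΘ hB hirr i x with ⟨N, hN⟩ | ⟨N, hN⟩ | ⟨k0, y0, c1, c2, c3, c4⟩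
      · exact absurd hN (not_le.2 (g1 N))
      · exact absurd hN (not_le.2 (g2 N))
      · refine ⟨k0, y0, c1, c2, c3, fun y' hy' => ?_⟩
        by_contra hne
        have d1 : D i y' ≠ 0 := fun h => hne (by rw [h, zero_mul])
        have d2 : B y' x ≠ 0 := fun h => hne (by rw [h, mul_zero])
        exact d2 (c4 y' hy' (g3 y' (hDS i y' d1) d2))
  · intro N i y hN hi hy hT hBy hD
    obtain ⟨⟨a, b, ha, hb⟩, -⟩ := hDS _ _ (hD 0)
    obtain ⟨k, z, h1, h2, h3⟩ := Tm_ex hb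
    obtain ⟨L', rfl⟩ : ∃ L', L = L' + 1 := ⟨L - 1, by omega⟩
    obtain ⟨N', rfl⟩ : ∃ N', N = N' + 1 := ⟨N - 1, by omega⟩
    set d := a * L' with hd
    set n0 := d * ((N' + 1) * (L' + 1) - 1) with hn0
    have hn0d : n0 + d = (N' + 1) * (d * (L' + 1)) := by
      have h5 : (N' + 1) * (L' + 1) - 1 + 1 = (N' + 1) * (L' + 1) := by
        have : 0 < (N' + 1) * (L' + 1) := by positivity
        omega
      calc n0 + d = d * ((N' + 1) * (L' + 1) - 1 + 1) := by rw [hn0]; ring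
        _ = _ := by rw [h5]; ring
    have h4 := walk hT n0 d
    rw [hn0d, per_mul hi] at h4
    have h5 : (Θ ^ (d + a)) (i n0) k ≠ 0 := pow_add_ne h4 h1
    have h6 := walk hBy 0 (n0 + 1)
    rw [zero_add] at h6
    have h7 : (B ^ (b + (n0 + 1))) z (y (n0 + 1)) ≠ 0 := pow_add_ne h3 h6
    have m1 : d + a ≡ 0 [MOD (L' + 1)] := by
      have : d + a = 0 + (L' + 1) * a := by rw [hd]; ring
      rw [this]
      exact (modEq_add_mul _ _ _ _).2 rfl
    have m2 : n0 + d ≡ 0 [MOD (L' + 1)] := by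
      have : n0 + d = 0 + (L' + 1) * ((N' + 1) * d) := by rw [hn0d]; ring
      rw [this]
      exact (modEq_add_mul _ _ _ _).2 rfl
    have m3 : n0 ≡ a [MOD (L' + 1)] := by
      refine Nat.ModEq.add_right_cancel' d ?_
      rw [add_comm a d]
      exact m2.trans m1.symm
    have m4 : b + (n0 + 1) ≡ t [MOD (L' + 1)] := by
      refine Nat.ModEq.trans ?_ ha
      have e1 : b + (n0 + 1) = n0 + (b + 1) := by ring
      have e2 : a + b + 1 = a + (b + 1) := by ring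
      rw [e1, e2]
      exact m3.add_right _
    have h8 : (Θ ^ (n * (L' + 1))) (i n0) k ≠ 0 := by
      refine hp _ _ _ (by omega) ⟨d + a, m1.trans ?_, h5⟩
      have : n * (L' + 1) = 0 + (L' + 1) * n := by ring
      rw [this]
      exact ((modEq_add_mul _ _ _ _).2 rfl).symm
    have h9 : (B ^ (L' + 1 + (n * (L' + 1) + (L' + 1) + t))) z (y (n0 + 1)) ≠ 0 := by
      refine hr _ _ _ (by omega) ⟨b + (n0 + 1), m4.trans ?_, h7⟩
      have : L' + 1 + (n * (L' + 1) + (L' + 1) + t) = t + (L' + 1) * (n + 2) := by ring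
      rw [this]
      exact ((modEq_add_mul _ _ _ _).2 rfl).symm
    refine ⟨n0, sh_ne hL ?_⟩
    rw [Tm_Tm, zero_add]
    exact Tm_ne h8 h2 h9

end Pool.Agent.H15L
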