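import Pool.Agent.H15L.Loc

/-!
# The localization theorem for arbitrary nonnegative integer matrices
-/

set_option autoImplicit false
set_option linter.unusedSectionVars false
set_option linter.unusedVariables false

namespace Pool.Agent.H15L

open Matrix Pool.Agent.H812R2.SSE

/-- the inverse isomorphism -/
def Eqv.symm {X X' : Obj} (E : Eqv X X') : Eqv X' X where
  e := E.e.symm
  h := fun i j => by
    have := E.h (E.e.symm i) (E.e.symm j)
    rw [Equiv.apply_symm_apply, Equiv.apply_symm_apply] at this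
    exact this.symm

theorem SEm.transport {X Y X' Y' : Obj} (E : Eqv X X') (F : Eqv Y Y') {l : ℕ}
    {R : Matrix X.ι Y.ι ℕ} {S : Matrix Y.ι X.ι ℕ} {R' : Matrix X'.ι Y'.ι ℕ}
    {S' : Matrix Y'.ι X'.ι ℕ} (hR : ∀ i j, R' (E.e i) (F.e j) = R i j)
    (hS : ∀ i j, S' (F.e i) (E.e j) = S i j) (h : SEm X' Y' l R' S') : SEm X Y l R S := by
  have e1 : X.M = X'.M.submatrix E.e E.e := by ext i j; exact (E.h i j).symm
  have e2 : Y.M = Y'.M.submatrix F.e F.e := by ext i j; exact (F.h i j).symm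
  have e3 : R = R'.submatrix E.e F.e := by ext i j; exact (hR i j).symm
  have e4 : S = S'.submatrix F.e E.e := by ext i j; exact (hS i j).symm
  refine ⟨h.hl, ?_, ?_, ?_, ?_⟩
  · rw [e1, e3, e4, Matrix.submatrix_mul_equiv, h.m1, submatrix_pow]
  · rw [e2, e3, e4, Matrix.submatrix_mul_equiv, h.m2, submatrix_pow]
  · rw [e1, e2, e3, Matrix.submatrix_mul_equiv, Matrix.submatrix_mul_equiv, h.c1]
  · rw [e1, e2, e4, Matrix.submatrix_mul_equiv, Matrix.submatrix_mul_equiv, h.c2]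

theorem CH.partner {X Y : Obj} {ρ : Matrix X.ι Y.ι ℕ} (h : CH X Y ρ) :
    ∃ (l : ℕ) (T : Matrix Y.ι X.ι ℕ), SEm X Y l ρ T ∧ CH Y X T := by
  obtain ⟨h1, ρs, a, h2, h3, h4, h5⟩ := h.rev'
  refine ⟨a + 1, ρs * X.M, ⟨by omega, ?_, ?_, h1, ?_⟩, h2.trans (CH.single X.M 1 (by simp) (by simp))⟩
  · rw [← Matrix.mul_assoc, h3, pow_succ]
  · rw [Matrix.mul_assoc, h1, ← Matrix.mul_assoc, h4, pow_succ]
  · rw [← Matrix.mul_assoc, h5]

theorem reduceNT : ∀ (N : ℕ) (α : Type) [Fintype α] [DecidableEq α] (A : Matrix α α ℕ),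
    Fintype.card α = N → ∃ (Y : Obj) (ρ : Matrix α Y.ι ℕ), NT Y.M ∧ CH ⟨α, A⟩ Y ρ := by
  intro N
  induction N using Nat.strong_induction_on with
  | _ N ih =>
  intro α _ _ A hN
  classical
  rcases isEmpty_or_nonempty α with hα | hα
  · exact ⟨⟨α, A⟩, 1, fun x => hα.elim x, CH.refl _⟩
  · obtain ⟨u0, _, hu0⟩ := Finset.exists_min_image (Finset.univ : Finset α)
      (fun i => (Finset.univ.filter (fun w => Rch A w i)).card)
      (by obtain ⟨a⟩ := hα; exact ⟨a, Finset.mem_univ _⟩)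
    have hmin : ∀ w, Rch A w u0 → Rch A u0 w := by
      intro w hw
      have e1 : (Finset.univ.filter (fun x => Rch A x w)) ⊆
          (Finset.univ.filter (fun x => Rch A x u0)) := by
        intro x
        simp only [Finset.mem_filter, Finset.mem_univ, true_and]
        exact fun h => h.trans hw
      have e2 := Finset.eq_of_subset_of_card_le e1 (hu0 w (Finset.mem_univ _))
      have e3 : u0 ∈ Finset.univ.filter (fun x => Rch A x w) := by
        rw [e2]; simp [Rch.refl]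
      simpa only [Finset.mem_filter, Finset.mem_univ, true_and] using e3
    by_cases hz : ∃ n, 0 < n ∧ (A ^ n) u0 u0 ≠ 0
    · obtain ⟨n0, hn0, hn0'⟩ := hz
      set p : α → Prop := fun u => Mut A u0 u with hp
      have hpred : ∀ w u, Rch A w u → p u → p w := by
        intro w u hwu hu
        have e1 : Rch A w u0 := hwu.trans hu.2
        exact ⟨hmin w e1, e1⟩
      set C : Matrix {u // p u} {u // p u} ℕ := fun u v => A u.1 v.1 with hC
      set m : Matrix {u // p u} {u // ¬ p u} ℕ := fun u v => A u.1 v.1 with hm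
      set A1 : Matrix {u // ¬ p u} {u // ¬ p u} ℕ := fun u v => A u.1 v.1 with hA1
      set e : α ≃ {u // p u} ⊕ {u // ¬ p u} := (Equiv.sumCompl p).symm with he
      have he1 : ∀ u, e.symm (Sum.inl u) = u.1 := fun u => rfl
      have he2 : ∀ u, e.symm (Sum.inr u) = u.1 := fun u => rfl
      have bA : A.submatrix e.symm e.symm = fromBlocks C m 0 A1 := by
        ext i j
        rcases i with i | i <;> rcases j with j | j
        · rfl
        · rfl
        · simp only [Matrix.submatrix_apply, he1, he2, Matrix.fromBlocks_apply₂₁, Matrix.zero_apply]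
          by_contra hne
          exact i.2 (hpred i.1 j.1 (Rch.edge hne) j.2)
        · rfl
      have hcard : Fintype.card {u // ¬ p u} < N := by
        rw [← hN]
        exact Fintype.card_subtype_lt (x := u0) (by simpa using Mut.refl A u0)
      obtain ⟨Y, ρ, nY, cY⟩ := ih _ hcard _ A1 rfl
      have c1 := CH.iso e A
      rw [bA] at c1
      have c2 := cY.lift C m
      refine ⟨⟨{u // p u} ⊕ Y.ι, fromBlocks C (m * ρ) 0 Y.M⟩, _, ?_, c1.trans c2⟩
      have pA := fun k => pow_inl e bA k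
      have pN : ∀ k, (fromBlocks C (m * ρ) 0 Y.M) ^ k = _ := fun k => block_pow C (m * ρ) Y.M k
      rintro (x | x)
      · obtain ⟨k1, hk1⟩ := x.2.2
        obtain ⟨k2, hk2⟩ := x.2.1
        refine ⟨k1 + n0 + k2, by omega, ?_⟩
        change ((fromBlocks C (m * ρ) 0 Y.M) ^ (k1 + n0 + k2)) (Sum.inl x) (Sum.inl x) ≠ 0
        rw [pN, Matrix.fromBlocks_apply₁₁, (pA _).1, he1]
        exact pow_add_ne (pow_add_ne hk1 hn0') hk2
      · obtain ⟨k, hk, hk'⟩ := nY x
        refine ⟨k, hk, ?_⟩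
        change ((fromBlocks C (m * ρ) 0 Y.M) ^ k) (Sum.inr x) (Sum.inr x) ≠ 0
        rw [pN, Matrix.fromBlocks_apply₂₂]
        exact hk'
    · have hcol : ∀ v, A v u0 = 0 := by
        intro v
        by_contra hne
        obtain ⟨k, hk⟩ := hmin v (Rch.edge hne)
        exact hz ⟨k + 1, Nat.succ_pos _, by rw [pow_succ]; exact ne_mul hk hne⟩
      have hcard : Fintype.card {v // v ≠ u0} < N := by
        rw [← hN]
        exact Fintype.card_subtype_lt (x := u0) (by simp)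
      obtain ⟨Y, ρ, nY, cY⟩ := ih _ hcard {v // v ≠ u0} (fun a b => A a.1 b.1) rfl
      exact ⟨Y, _, nY, (remove A u0 hcol).trans cY⟩

section

variable {X Y : Obj} {l : ℕ} {R : Matrix X.ι Y.ι ℕ} {S : Matrix Y.ι X.ι ℕ}

theorem closed (h : SEm X Y l R S) {a : X.ι} {b : Y.ι} (h1 : Lk X R a b) (h2 : Lk Y S b a) :
    ∃ p, 1 ≤ p ∧ (X.M ^ p) a a ≠ 0 := by
  obtain ⟨k, hk⟩ := h1
  obtain ⟨m, hm⟩ := h2
  refine ⟨k + m + l, by have := h.hl; omega, ?_⟩
  have e : X.M ^ (k + m + l) = (X.M ^ k * R) * (Y.M ^ m * S) := by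
    rw [pow_add, pow_add, ← h.m1]
    calc X.M ^ k * X.M ^ m * (R * S) = X.M ^ k * (X.M ^ m * R) * S := by
          simp only [Matrix.mul_assoc]
      _ = _ := by rw [h.p1]; simp only [Matrix.mul_assoc]
  rw [e]
  exact ne_mul hk hm

theorem Lk.pad (h : SEm X Y l R S) {a : X.ι} {b : Y.ι} (h1 : Lk X R a b) (h2 : Lk Y S b a)
    (t : ℕ) : Lk X (X.M ^ t * R) a b := by
  obtain ⟨p, hp, hpa⟩ := closed h h1 h2
  obtain ⟨k, hk⟩ := h1
  have h3 := pow_mul_ne hpa t
  have h4 : t ≤ p * t := Nat.le_mul_of_pos_left _ hp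
  refine ⟨p * t - t + k, ?_⟩
  have e : X.M ^ (p * t - t + k) * (X.M ^ t * R) = X.M ^ (p * t) * (X.M ^ k * R) := by
    rw [← Matrix.mul_assoc, ← Matrix.mul_assoc, ← pow_add, ← pow_add]
    congr 2
    omega
  rw [e]
  exact ne_mul h3 hk

/-- **The localization theorem**, sufficiency. -/
theorem realise (h : SEm X Y l R S)
    (hloc : ∀ a b, Lk X R a b → Lk Y S b a →
      ∃ t, CH (compO X.M a) (compO Y.M b) ((compO X.M a).M ^ t * cm R a b)) :
    ∃ t, CH X Y (X.M ^ t * R) := by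
  obtain ⟨X', ρ, nX, cX⟩ := reduceNT _ X.ι X.M rfl
  obtain ⟨Y', ρ', nY, cY⟩ := reduceNT _ Y.ι Y.M rfl
  change CH X X' ρ at cX
  change CH Y Y' ρ' at cY
  obtain ⟨a, ρs, mX, cXs⟩ := CH.partner cX
  obtain ⟨b, ρs', mY, cYs⟩ := CH.partner cY
  have hs := mX.symm.trans (h.trans mY)
  have hL : LocR X'.M Y'.M (ρs * (R * ρ')) ((ρs' * S) * ρ) := by
    rintro x y hxy ⟨x', hx', hy⟩
    have L1 : Lk X' (ρs * (R * ρ')) x y := Lk.of hxy
    have L2 : Lk Y' ((ρs' * S) * ρ) y x := Lk.right hs.symm (Lk.of hy) hx'.2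
    obtain ⟨u, i1, i2, i3, i4⟩ := Lnk.split mX.symm (h.trans mY) L1 L2
    obtain ⟨v, j1, j2, j3, j4⟩ := Lnk.split h mY i3 i4
    have c1 := CH.restrict cXs _ _ mX.symm x u i1 i2
    obtain ⟨t, c2⟩ := hloc u v j1 j2
    have c3 := CH.restrict cY _ _ mY v y j3 j4
    refine ⟨t, ?_⟩
    have c := (c1.trans c2).trans c3
    have e1 : cm (ρs * (R * ρ')) x y = cm ρs x u * (cm R u v * cm ρ' v y) := by
      rw [cm_mul mX.symm (h.trans mY) i2 i4, cm_mul h mY j2 j4]
    have e2 := (mX.symm.block i1 i2).p1 t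
    have e3 : (compO X'.M x).M ^ t * cmpR X'.M Y'.M (ρs * (R * ρ')) x y =
        cm ρs x u * ((compO X.M u).M ^ t * cm R u v) * cm ρ' v y := by
      change (compO X'.M x).M ^ t * cm (ρs * (R * ρ')) x y = _
      rw [e1, ← Matrix.mul_assoc, e2]
      simp only [Matrix.mul_assoc]
    rw [e3]
    exact c
  obtain ⟨t, ct⟩ := core _ X'.ι Y'.ι X'.M Y'.M nX nY _ _ _ hs.c1 hs.c2 hs.m1 hs.m2 hL rfl
  refine ⟨t + a + b, ?_⟩
  have c := (cX.trans ct).trans cYs
  convert c using 1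
  calc X.M ^ (t + a + b) * R = X.M ^ (t + a) * (X.M ^ b * R) := by
        rw [pow_add _ (t + a), Matrix.mul_assoc]
    _ = X.M ^ t * X.M ^ a * (R * Y.M ^ b) := by rw [h.p1, ← pow_add]
    _ = (X.M ^ t * ρ) * ρs * (R * (ρ' * ρs')) := by
        rw [← mX.m1, mY.m1]; simp only [Matrix.mul_assoc]
    _ = (ρ * X'.M ^ t) * ρs * (R * (ρ' * ρs')) := by rw [mX.p1]
    _ = ρ * (X'.M ^ t * (ρs * (R * ρ'))) * ρs' := by simp only [Matrix.mul_assoc]

/-- **The localization theorem**, necessity. -/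
theorem local_of_realise (h : SEm X Y l R S) {t : ℕ} (c : CH X Y (X.M ^ t * R)) (a : X.ι)
    (b : Y.ι) (h1 : Lk X R a b) (h2 : Lk Y S b a) :
    CH (compO X.M a) (compO Y.M b) ((compO X.M a).M ^ t * cm R a b) := by
  rw [← cm_raise h h1 h2 t]
  exact CH.restrict c _ _ (h.raise t) a b (h1.pad h h2 t) h2

/-- all shift equivalences from `X` to `Y` are realised -/
def AllR (X Y : Obj) : Prop :=
  ∀ (l : ℕ) (R : Matrix X.ι Y.ι ℕ) (S : Matrix Y.ι X.ι ℕ), SEm X Y l R S →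
    ∃ t, CH X Y (X.M ^ t * R)

/-- realisation is invariant under strong shift equivalence -/
theorem AllR.transport {X Y X' Y' : Obj} {ρ : Matrix X.ι X'.ι ℕ} {ρ' : Matrix Y.ι Y'.ι ℕ}
    (cX : CH X X' ρ) (cY : CH Y Y' ρ') (hA : AllR X' Y') : AllR X Y := by
  intro l R S h
  obtain ⟨a, ρs, mX, cXs⟩ := CH.partner cX
  obtain ⟨b, ρs', mY, cYs⟩ := CH.partner cY
  obtain ⟨t, ct⟩ := hA _ _ _ (mX.symm.trans (h.trans mY))
  refine ⟨t + a + b, ?_⟩
  have c := (cX.trans ct).trans cYs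
  convert c using 1
  calc X.M ^ (t + a + b) * R = X.M ^ (t + a) * (X.M ^ b * R) := by
        rw [pow_add _ (t + a), Matrix.mul_assoc]
    _ = X.M ^ t * X.M ^ a * (R * Y.M ^ b) := by rw [h.p1, ← pow_add]
    _ = (X.M ^ t * ρ) * ρs * (R * (ρ' * ρs')) := by
        rw [← mX.m1, mY.m1]; simp only [Matrix.mul_assoc]
    _ = (ρ * X'.M ^ t) * ρs * (R * (ρ' * ρs')) := by rw [mX.p1]
    _ = ρ * (X'.M ^ t * (ρs * (R * ρ'))) * ρs' := by simp only [Matrix.mul_assoc]

/-- class version -/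
theorem allR_of_components {X Y : Obj}
    (h : ∀ (a : X.ι) (b : Y.ι), (∃ p, 1 ≤ p ∧ (X.M ^ p) a a ≠ 0) → (∃ p, 1 ≤ p ∧ (Y.M ^ p) b b ≠ 0) →
      AllR (compO X.M a) (compO Y.M b)) : AllR X Y := by
  intro l R S hs
  refine realise hs fun a b h1 h2 => ?_
  exact h a b (closed hs h1 h2) (closed hs.symm h2 h1) _ _ _ (hs.block h1 h2)

end

end Pool.Agent.H15L
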