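import Pool.Agent.H15L.Mid

/-!
# The block step for arbitrary components
-/

set_option autoImplicit false
set_option linter.unusedSectionVars false

namespace Pool.Agent.H15L

open Matrix Pool.Agent.H812R2.SSE

theorem CH.top {X Y : Obj} {ρ : Matrix X.ι Y.ι ℕ} (h : CH X Y ρ) {κ : Type} [Fintype κ]
    [DecidableEq κ] (P : Matrix κ κ ℕ) : ∀ (n : Matrix Y.ι κ ℕ),
    CH ⟨X.ι ⊕ κ, fromBlocks X.M (ρ * n) 0 P⟩ ⟨Y.ι ⊕ κ, fromBlocks Y.M n 0 P⟩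
      (fromBlocks ρ 0 0 1) := by
  induction h with
  | refl X =>
    intro n
    rw [Matrix.one_mul, Matrix.fromBlocks_one]
    exact CH.refl _
  | step X Y Z R S ρ h1 h2 _ ih =>
    intro n
    have ih' := ih n
    have e : (fromBlocks (R * ρ) 0 0 (1 : Matrix κ κ ℕ)) =
        fromBlocks R 0 0 (1 : Matrix κ κ ℕ) * fromBlocks ρ 0 0 (1 : Matrix κ κ ℕ) := by
      rw [Matrix.fromBlocks_multiply]; simp
    rw [e]
    refine CH.step ⟨X.ι ⊕ κ, fromBlocks X.M (R * ρ * n) 0 P⟩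
      ⟨Y.ι ⊕ κ, fromBlocks Y.M (ρ * n) 0 P⟩ _
      (fromBlocks R 0 0 1) (fromBlocks S (ρ * n) 0 P) _ ?_ ?_ ih'
    · simp only [Matrix.fromBlocks_multiply, h1, Matrix.mul_assoc]; simp
    · simp only [Matrix.fromBlocks_multiply, h2]; simp

theorem CH.self (X : Obj) (k : ℕ) : CH X X (X.M ^ k) := by
  induction k with
  | zero => rw [pow_zero]; exact CH.refl X
  | succ k ih =>
    rw [pow_succ]
    exact ih.trans (CH.single X.M 1 (by simp) (by simp))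

theorem CH.raise {X Y : Obj} {R : Matrix X.ι Y.ι ℕ} {t : ℕ} (h : CH X Y (X.M ^ t * R)) {t' : ℕ}
    (ht : t ≤ t') : CH X Y (X.M ^ t' * R) := by
  have h1 := (CH.self X (t' - t)).trans h
  rw [← Matrix.mul_assoc, ← pow_add, Nat.sub_add_cancel ht] at h1
  exact h1

section step

variable {γ γ' α β : Type} [Fintype γ] [DecidableEq γ] [Fintype γ'] [DecidableEq γ']
  [Fintype α] [DecidableEq α] [Fintype β] [DecidableEq β]

/-- the hypotheses on the blocks -/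
structure Dt (Θ : Matrix γ γ ℕ) (m : Matrix γ α ℕ) (A : Matrix α α ℕ)
    (Θ' : Matrix γ' γ' ℕ) (m' : Matrix γ' β ℕ) (B : Matrix β β ℕ)
    (R0 : Matrix γ γ' ℕ) (r12 : Matrix γ β ℕ) (R2 : Matrix α β ℕ)
    (S0 : Matrix γ' γ ℕ) (s12 : Matrix γ' α ℕ) (S2 : Matrix β α ℕ) (l : ℕ) : Prop where
  eAR : fromBlocks Θ m 0 A * fromBlocks R0 r12 0 R2 = fromBlocks R0 r12 0 R2 * fromBlocks Θ' m' 0 B
  eRS : fromBlocks R0 r12 0 R2 * fromBlocks S0 s12 0 S2 = (fromBlocks Θ m 0 A) ^ l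
  eSR : fromBlocks S0 s12 0 S2 * fromBlocks R0 r12 0 R2 = (fromBlocks Θ' m' 0 B) ^ l

variable {Θ : Matrix γ γ ℕ} {m : Matrix γ α ℕ} {A : Matrix α α ℕ}
    {Θ' : Matrix γ' γ' ℕ} {m' : Matrix γ' β ℕ} {B : Matrix β β ℕ}
    {R0 : Matrix γ γ' ℕ} {r12 : Matrix γ β ℕ} {R2 : Matrix α β ℕ}
    {S0 : Matrix γ' γ ℕ} {s12 : Matrix γ' α ℕ} {S2 : Matrix β α ℕ} {l : ℕ}

/-- the upper right block of `A^t R` -/
def YT (Θ : Matrix γ γ ℕ) (m : Matrix γ α ℕ) (A : Matrix α α ℕ) (r12 : Matrix γ β ℕ)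
    (R2 : Matrix α β ℕ) (t : ℕ) : Matrix γ β ℕ :=
  Θ ^ t * r12 + PP Θ m A t * R2

theorem AtR' (t : ℕ) : (fromBlocks Θ m 0 A) ^ t * fromBlocks R0 r12 0 R2 =
    fromBlocks (Θ ^ t * R0) (YT Θ m A r12 R2 t) 0 (A ^ t * R2) := by
  rw [block_pow, Matrix.fromBlocks_multiply, YT]
  simp

theorem Dt.cR0 (D : Dt Θ m A Θ' m' B R0 r12 R2 S0 s12 S2 l) : Θ * R0 = R0 * Θ' := by
  have h := D.eAR
  rw [Matrix.fromBlocks_multiply, Matrix.fromBlocks_multiply, Matrix.fromBlocks_inj] at h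
  simpa using h.1

theorem Dt.cR2 (D : Dt Θ m A Θ' m' B R0 r12 R2 S0 s12 S2 l) : A * R2 = R2 * B := by
  have h := D.eAR
  rw [Matrix.fromBlocks_multiply, Matrix.fromBlocks_multiply, Matrix.fromBlocks_inj] at h
  simpa using h.2.2.2

theorem Dt.S2R2 (D : Dt Θ m A Θ' m' B R0 r12 R2 S0 s12 S2 l) : S2 * R2 = B ^ l := by
  have h := D.eSR
  rw [block_pow, Matrix.fromBlocks_multiply, Matrix.fromBlocks_inj] at h
  simpa using h.2.2.2

theorem Dt.R2S2 (D : Dt Θ m A Θ' m' B R0 r12 R2 S0 s12 S2 l) : R2 * S2 = A ^ l := by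
  have h := D.eRS
  rw [block_pow, Matrix.fromBlocks_multiply, Matrix.fromBlocks_inj] at h
  simpa using h.2.2.2

theorem Dt.R0S0 (D : Dt Θ m A Θ' m' B R0 r12 R2 S0 s12 S2 l) : R0 * S0 = Θ ^ l := by
  have h := D.eRS
  rw [block_pow, Matrix.fromBlocks_multiply, Matrix.fromBlocks_inj] at h
  simpa using h.1

theorem Dt.S0R0 (D : Dt Θ m A Θ' m' B R0 r12 R2 S0 s12 S2 l) : S0 * R0 = Θ' ^ l := by
  have h := D.eSR
  rw [block_pow, Matrix.fromBlocks_multiply, Matrix.fromBlocks_inj] at h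
  simpa using h.1

theorem Dt.E3 (D : Dt Θ m A Θ' m' B R0 r12 R2 S0 s12 S2 l) (t : ℕ) :
    Θ ^ t * R0 * s12 + YT Θ m A r12 R2 t * S2 = PP Θ m A (t + l) := by
  have h : (fromBlocks Θ m 0 A) ^ t * fromBlocks R0 r12 0 R2 *
      fromBlocks S0 s12 0 S2 = (fromBlocks Θ m 0 A) ^ (t + l) := by
    rw [Matrix.mul_assoc, D.eRS, ← pow_add]
  rw [AtR', Matrix.fromBlocks_multiply, block_pow, Matrix.fromBlocks_inj] at h
  exact h.2.1

theorem Dt.E2 (D : Dt Θ m A Θ' m' B R0 r12 R2 S0 s12 S2 l) (t : ℕ) :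
    S0 * YT Θ m A r12 R2 t + s12 * (A ^ t * R2) = PP Θ' m' B (l + t) := by
  have h : fromBlocks S0 s12 0 S2 *
      ((fromBlocks Θ m 0 A) ^ t * fromBlocks R0 r12 0 R2) =
      (fromBlocks Θ' m' 0 B) ^ (l + t) := by
    rw [semiconj_pow _ _ _ D.eAR t, ← Matrix.mul_assoc, D.eSR, ← pow_add]
  rw [AtR', Matrix.fromBlocks_multiply, block_pow, Matrix.fromBlocks_inj] at h
  exact h.2.1

theorem Dt.tower (D : Dt Θ m A Θ' m' B R0 r12 R2 S0 s12 S2 l) :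
    Tower Θ B (fun t => m * (A ^ t * R2)) (fun t => Θ ^ t * R0 * m') (YT Θ m A r12 R2) where
  hs t := by
    show m * (A ^ (t + 1) * R2) = m * (A ^ t * R2) * B
    rw [pow_succ, Matrix.mul_assoc (A ^ t), D.cR2]
    simp only [Matrix.mul_assoc]
  hq t := by
    show Θ ^ (t + 1) * R0 * m' = Θ * (Θ ^ t * R0 * m')
    rw [pow_succ']
    simp only [Matrix.mul_assoc]
  h1 t := by
    show YT Θ m A r12 R2 (t + 1) = Θ * YT Θ m A r12 R2 t + m * (A ^ t * R2)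
    unfold YT
    rw [PP_succ, pow_succ', Matrix.mul_add, Matrix.add_mul]
    simp only [Matrix.mul_assoc]
    rw [add_assoc]
  h2 t := by
    have h : (fromBlocks Θ m 0 A) ^ (t + 1) * fromBlocks R0 r12 0 R2 =
        (fromBlocks Θ m 0 A) ^ t * fromBlocks R0 r12 0 R2 * fromBlocks Θ' m' 0 B := by
      rw [pow_succ, Matrix.mul_assoc, D.eAR, Matrix.mul_assoc]
    rw [AtR', AtR', Matrix.fromBlocks_multiply, Matrix.fromBlocks_inj] at h
    exact h.2.1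

theorem Dt.sup (D : Dt Θ m A Θ' m' B R0 r12 R2 S0 s12 S2 l) {L : ℕ} (hL : 0 < L)
    (hΘ : ∀ i, (Θ ^ L) i i ≠ 0) (hB : ∀ x, (B ^ L) x x ≠ 0) (t : ℕ) (i : γ) (z : β)
    (h : YT Θ m A r12 R2 t i z ≠ 0) :
    Sup Θ B L t (m * (A ^ 0 * R2)) i z ∧ Sup Θ B L t (Θ ^ 0 * R0 * m') i z := by
  have hLl : l ≤ L * l := Nat.le_mul_of_pos_left _ hL
  constructor
  · have h1 := pow_mul_ne (hB z) l
    have e1 : B ^ (L * l) = B ^ l * B ^ (L * l - l) := by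
      rw [← pow_add]; congr 1; omega
    rw [e1] at h1
    obtain ⟨z', h2, h3⟩ := ex_mul h1
    rw [← D.S2R2] at h2
    obtain ⟨v, h4, h5⟩ := ex_mul h2
    have h6 : (YT Θ m A r12 R2 t * S2) i v ≠ 0 := ne_mul h h4
    have h7 : PP Θ m A (t + l) i v ≠ 0 := by
      rw [← D.E3 t, Matrix.add_apply]
      omega
    obtain ⟨k, hk, h8⟩ := PP_ne _ _ _ _ _ h7
    have h9 : (Θ ^ (t + l - 1 - k) * (m * A ^ k) * R2) i z' ≠ 0 := ne_mul h8 h5
    have h10 : (Θ ^ (t + l - 1 - k) * (m * A ^ k) * R2 * B ^ (L * l - l)) i z ≠ 0 := ne_mul h9 h3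
    refine ⟨t + l - 1 - k, k + (L * l - l), ?_, ?_⟩
    · have : t + l - 1 - k + (k + (L * l - l)) + 1 = t + L * l := by omega
      rw [this]
      exact (modEq_add_mul _ _ _ _).2 rfl
    · have e2 : Tm Θ B (t + l - 1 - k) (k + (L * l - l)) (m * (A ^ 0 * R2)) =
          Θ ^ (t + l - 1 - k) * (m * A ^ k) * R2 * B ^ (L * l - l) := by
        unfold Tm
        rw [pow_zero, Matrix.one_mul, pow_add B]
        have := semiconj_pow A B R2 D.cR2 k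
        have e3 : Θ ^ (t + l - 1 - k) * (m * A ^ k) * R2 * B ^ (L * l - l) =
            Θ ^ (t + l - 1 - k) * m * (A ^ k * R2) * B ^ (L * l - l) := by
          simp only [Matrix.mul_assoc]
        rw [e3, this]
        simp only [Matrix.mul_assoc]
      rw [e2]
      exact h10
  · have h1 := pow_mul_ne (hΘ i) l
    have e1 : Θ ^ (L * l) = Θ ^ (L * l - l) * Θ ^ l := by
      rw [← pow_add]; congr 1; omega
    rw [e1, ← D.R0S0, ← Matrix.mul_assoc] at h1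
    obtain ⟨i', h2, h3⟩ := ex_mul h1
    have h4 : (S0 * YT Θ m A r12 R2 t) i' z ≠ 0 := ne_mul h3 h
    have h5 : PP Θ' m' B (l + t) i' z ≠ 0 := by
      rw [← D.E2 t, Matrix.add_apply]
      omega
    obtain ⟨k, hk, h6⟩ := PP_ne _ _ _ _ _ h5
    have h7 : (Θ ^ (L * l - l) * R0 * (Θ' ^ (l + t - 1 - k) * (m' * B ^ k))) i z ≠ 0 :=
      ne_mul h2 h6
    refine ⟨(L * l - l) + (l + t - 1 - k), k, ?_, ?_⟩
    · have : (L * l - l) + (l + t - 1 - k) + k + 1 = t + L * l := by omega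
      rw [this]
      exact (modEq_add_mul _ _ _ _).2 rfl
    · have e2 : Tm Θ B ((L * l - l) + (l + t - 1 - k)) k (Θ ^ 0 * R0 * m') =
          Θ ^ (L * l - l) * R0 * (Θ' ^ (l + t - 1 - k) * (m' * B ^ k)) := by
        unfold Tm
        rw [pow_zero, Matrix.one_mul, pow_add Θ]
        have := semiconj_pow Θ Θ' R0 D.cR0 (l + t - 1 - k)
        have e3 : Θ ^ (L * l - l) * Θ ^ (l + t - 1 - k) * (R0 * m') * B ^ k =
            Θ ^ (L * l - l) * (Θ ^ (l + t - 1 - k) * R0) * (m' * B ^ k) := by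
          simp only [Matrix.mul_assoc]
        rw [e3, this]
        simp only [Matrix.mul_assoc]
      rw [e2]
      exact h7

/-- **The block step.** -/
theorem Dt.step (D : Dt Θ m A Θ' m' B R0 r12 R2 S0 s12 S2 l)
    (hirr : ∀ i j, Rch Θ i j) (hΘ : ∀ i, ∃ n, 0 < n ∧ (Θ ^ n) i i ≠ 0)
    (hB : ∀ x, ∃ n, 0 < n ∧ (B ^ n) x x ≠ 0)
    {t0 t1 : ℕ} (c0 : CH ⟨γ, Θ⟩ ⟨γ', Θ'⟩ (Θ ^ t0 * R0)) (c1 : CH ⟨α, A⟩ ⟨β, B⟩ (A ^ t1 * R2)) :
    ∃ t, CH ⟨γ ⊕ α, fromBlocks Θ m 0 A⟩ ⟨γ' ⊕ β, fromBlocks Θ' m' 0 B⟩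
      ((fromBlocks Θ m 0 A) ^ t * fromBlocks R0 r12 0 R2) := by
  obtain ⟨L1, hL1, hL1'⟩ := exists_period Θ hΘ
  obtain ⟨L2, hL2, hL2'⟩ := exists_period B hB
  have hL : 0 < L1 * L2 := Nat.mul_pos hL1 hL2
  have h1 : ∀ i, (Θ ^ (L1 * L2)) i i ≠ 0 := fun i => pow_mul_ne (hL1' i) L2
  have h2 : ∀ x, (B ^ (L1 * L2)) x x ≠ 0 := fun x => by
    rw [mul_comm]; exact pow_mul_ne (hL2' x) L1
  obtain ⟨t, ht, hF⟩ := D.tower.fire hL h1 h2 hirr (fun t i y h => D.sup hL h1 h2 t i y h) (t0 + t1)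
  refine ⟨t, ?_⟩
  have c0' := CH.raise (X := ⟨γ, Θ⟩) (Y := ⟨γ', Θ'⟩) (R := R0) c0 (show t0 ≤ t by omega)
  have c1' := CH.raise (X := ⟨α, A⟩) (Y := ⟨β, B⟩) (R := R2) c1 (show t1 ≤ t by omega)
  have d1 := c1'.lift Θ m
  have d3 := CH.top c0' B m'
  have d := (d1.trans hF).trans d3
  convert d using 1
  rw [AtR']
  change fromBlocks (Θ ^ t * R0) (YT Θ m A r12 R2 t) 0 (A ^ t * R2) =
    fromBlocks 1 0 0 (A ^ t * R2) * fromBlocks 1 (YT Θ m A r12 R2 t) 0 1 *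
      fromBlocks (Θ ^ t * R0) 0 0 1
  rw [Matrix.fromBlocks_multiply, Matrix.fromBlocks_multiply]
  simp

end step

end Pool.Agent.H15L
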