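import Pool.Agent.H15L.Interp

/-!
# Towers of firing problems, spreading
-/

set_option autoImplicit false
set_option linter.unusedSectionVars false

namespace Pool.Agent.H15L

open Matrix Pool.Agent.H812R2.SSE

variable {γ β : Type} [Fintype γ] [DecidableEq γ] [Fintype β] [DecidableEq β]

/-- two-sided multiplication by powers -/
def Tm (Θ : Matrix γ γ ℕ) (B : Matrix β β ℕ) (a b : ℕ) (X : Matrix γ β ℕ) : Matrix γ β ℕ :=
  Θ ^ a * X * B ^ b

variable {Θ : Matrix γ γ ℕ} {B : Matrix β β ℕ}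

theorem Tm_Tm (a b c d : ℕ) (X : Matrix γ β ℕ) :
    Tm Θ B a b (Tm Θ B c d X) = Tm Θ B (a + c) (b + d) X := by
  unfold Tm
  rw [pow_add Θ a c, add_comm b d, pow_add B d b]
  simp only [Matrix.mul_assoc]

theorem Tm_zero_zero (X : Matrix γ β ℕ) : Tm Θ B 0 0 X = X := by simp [Tm]

theorem Tm_mulB (a b : ℕ) (X : Matrix γ β ℕ) : Tm Θ B a b X * B = Tm Θ B a (b + 1) X := by
  unfold Tm; rw [pow_succ, Matrix.mul_assoc]

theorem Tm_mulT (a b : ℕ) (X : Matrix γ β ℕ) : Θ * Tm Θ B a b X = Tm Θ B (a + 1) b X := by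
  unfold Tm; rw [pow_succ']; simp only [Matrix.mul_assoc]

theorem Tm_add (a b : ℕ) (X Y : Matrix γ β ℕ) :
    Tm Θ B a b (X + Y) = Tm Θ B a b X + Tm Θ B a b Y := by
  unfold Tm; rw [Matrix.mul_add, Matrix.add_mul]

theorem Tm_sum {ι : Type} (a b : ℕ) (S : Finset ι) (f : ι → Matrix γ β ℕ) :
    Tm Θ B a b (∑ i ∈ S, f i) = ∑ i ∈ S, Tm Θ B a b (f i) := by
  unfold Tm; rw [Matrix.mul_sum, Matrix.sum_mul]

theorem Tm_smul (a b n : ℕ) (X : Matrix γ β ℕ) :
    Tm Θ B a b (n • X) = n • Tm Θ B a b X := by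
  unfold Tm; rw [Matrix.mul_smul, Matrix.smul_mul]

theorem Tm_mono {a b : ℕ} {X Y : Matrix γ β ℕ} (h : ∀ i x, X i x ≤ Y i x) (i : γ) (x : β) :
    Tm Θ B a b X i x ≤ Tm Θ B a b Y i x := by
  unfold Tm
  rw [Matrix.mul_apply, Matrix.mul_apply]
  refine Finset.sum_le_sum fun y _ => Nat.mul_le_mul_right _ ?_
  rw [Matrix.mul_apply, Matrix.mul_apply]
  exact Finset.sum_le_sum fun k _ => Nat.mul_le_mul_left _ (h k y)

theorem move (z w : Matrix γ β ℕ) (c n : ℕ) : ∀ j ≤ n,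
    Fire Θ B (z + Tm Θ B c n w) (∑ i ∈ Finset.range j, Tm Θ B (c + i) (n - 1 - i) w)
      (z + Tm Θ B (c + j) (n - j) w) := by
  intro j
  induction j with
  | zero => intro _; simpa using Fire.refl _
  | succ j ih =>
    intro hj
    have h1 := ih (by omega)
    have h2 := Fire.basic (Θ := Θ) (B := B) z (Tm Θ B (c + j) (n - 1 - j) w)
    rw [Tm_mulB, Tm_mulT] at h2
    have e1 : n - 1 - j + 1 = n - j := by omega
    have e2 : n - (j + 1) = n - 1 - j := by omega
    rw [e1] at h2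
    have h3 := h1.trans h2
    rw [Finset.sum_range_succ, e2, ← add_assoc c j 1]
    exact h3

theorem spreadS (w : Matrix γ β ℕ) (L : ℕ) : ∀ n ≤ L, ∀ z : Matrix γ β ℕ,
    Fire Θ B (z + n • Tm Θ B 0 L w)
      (∑ j ∈ Finset.range n, ∑ i ∈ Finset.range j, Tm Θ B i (L - 1 - i) w)
      (z + ∑ j ∈ Finset.range n, Tm Θ B j (L - j) w) := by
  intro n
  induction n with
  | zero => intro _ z; simpa using Fire.refl _
  | succ n ih =>
    intro hn z
    have h1 := ih (by omega) (z + Tm Θ B 0 L w)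
    have h2 := move (Θ := Θ) (B := B) (z + ∑ j ∈ Finset.range n, Tm Θ B j (L - j) w) w 0 L n
      (by omega)
    simp only [zero_add] at h2
    have e1 : z + Tm Θ B 0 L w + n • Tm Θ B 0 L w = z + (n + 1) • Tm Θ B 0 L w := by
      rw [add_smul, one_smul]; abel
    have e2 : z + Tm Θ B 0 L w + ∑ j ∈ Finset.range n, Tm Θ B j (L - j) w =
        z + ∑ j ∈ Finset.range n, Tm Θ B j (L - j) w + Tm Θ B 0 L w := by abel
    rw [e1, e2] at h1
    have h3 := h1.trans h2
    rw [Finset.sum_range_succ, Finset.sum_range_succ (fun j => Tm Θ B j (L - j) w), ← add_assoc z]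
    exact h3

theorem spreadQ (w : Matrix γ β ℕ) (L : ℕ) : ∀ n ≤ L, ∀ z : Matrix γ β ℕ,
    Fire Θ B (z + ∑ j ∈ Finset.range n, Tm Θ B (L - j) j w)
      (∑ j ∈ Finset.range n, ∑ i ∈ Finset.range j, Tm Θ B (L - j + i) (j - 1 - i) w)
      (z + n • Tm Θ B L 0 w) := by
  intro n
  induction n with
  | zero => intro _ z; simpa using Fire.refl _
  | succ n ih =>
    intro hn z
    have h1 := ih (by omega) (z + Tm Θ B (L - n) n w)
    have h2 := move (Θ := Θ) (B := B) (z + n • Tm Θ B L 0 w) w (L - n) n n le_rfl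
    have e0 : L - n + n = L := by omega
    rw [e0, Nat.sub_self] at h2
    have e1 : z + Tm Θ B (L - n) n w + ∑ j ∈ Finset.range n, Tm Θ B (L - j) j w =
        z + ∑ j ∈ Finset.range (n + 1), Tm Θ B (L - j) j w := by
      rw [Finset.sum_range_succ]; abel
    have e2 : z + Tm Θ B (L - n) n w + n • Tm Θ B L 0 w =
        z + n • Tm Θ B L 0 w + Tm Θ B (L - n) n w := by abel
    have e3 : z + n • Tm Θ B L 0 w + Tm Θ B L 0 w = z + (n + 1) • Tm Θ B L 0 w := by
      rw [add_smul, one_smul]; abel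
    rw [e1, e2] at h1
    rw [e3] at h2
    have h3 := h1.trans h2
    rw [Finset.sum_range_succ (fun j => ∑ i ∈ Finset.range j, Tm Θ B (L - j + i) (j - 1 - i) w)]
    exact h3

/-- a sequence of firing problems -/
structure Tower (Θ : Matrix γ γ ℕ) (B : Matrix β β ℕ) (s q Y : ℕ → Matrix γ β ℕ) : Prop where
  hs : ∀ t, s (t + 1) = s t * B
  hq : ∀ t, q (t + 1) = Θ * q t
  h1 : ∀ t, Y (t + 1) = Θ * Y t + s t
  h2 : ∀ t, Y (t + 1) = q t + Y t * B

variable {s q Y : ℕ → Matrix γ β ℕ}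

theorem Tower.s_add (T : Tower Θ B s q Y) (t n : ℕ) : s (t + n) = Tm Θ B 0 n (s t) := by
  induction n with
  | zero => rw [Tm_zero_zero]; rfl
  | succ n ih => rw [← add_assoc, T.hs, ih, Tm_mulB]

theorem Tower.q_add (T : Tower Θ B s q Y) (t n : ℕ) : q (t + n) = Tm Θ B n 0 (q t) := by
  induction n with
  | zero => rw [Tm_zero_zero]; rfl
  | succ n ih => rw [← add_assoc, T.hq, ih, Tm_mulT]

theorem Tower.Y_add1 (T : Tower Θ B s q Y) (t n : ℕ) :
    Y (t + n) = ∑ i ∈ Finset.range n, Tm Θ B i (n - 1 - i) (s t) + Tm Θ B n 0 (Y t) := by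
  induction n with
  | zero => simp [Tm_zero_zero]
  | succ n ih =>
    rw [← add_assoc, T.h1, ih, Matrix.mul_add, Tm_mulT, Matrix.mul_sum, T.s_add,
      Finset.sum_range_succ']
    have e : ∀ i ∈ Finset.range n, Θ * Tm Θ B i (n - 1 - i) (s t) =
        Tm Θ B (i + 1) (n + 1 - 1 - (i + 1)) (s t) := by
      intro i hi
      rw [Tm_mulT]
      have := Finset.mem_range.1 hi
      have e2 : n + 1 - 1 - (i + 1) = n - 1 - i := by omega
      rw [e2]
    rw [Finset.sum_congr rfl e]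
    simp only [Nat.sub_zero, Nat.add_sub_cancel]
    abel

theorem Tower.Y_add2 (T : Tower Θ B s q Y) (t n : ℕ) :
    Y (t + n) = ∑ i ∈ Finset.range n, Tm Θ B i (n - 1 - i) (q t) + Tm Θ B 0 n (Y t) := by
  induction n with
  | zero => simp [Tm_zero_zero]
  | succ n ih =>
    rw [← add_assoc, T.h2, ih, Matrix.add_mul, Tm_mulB, Matrix.sum_mul, T.q_add,
      Finset.sum_range_succ]
    have e : ∀ i ∈ Finset.range n, Tm Θ B i (n - 1 - i) (q t) * B =
        Tm Θ B i (n + 1 - 1 - i) (q t) := by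
      intro i hi
      rw [Tm_mulB]
      have := Finset.mem_range.1 hi
      have e2 : n + 1 - 1 - i = n - 1 - i + 1 := by omega
      rw [e2]
    rw [Finset.sum_congr rfl e]
    have e3 : n + 1 - 1 - n = 0 := by omega
    rw [e3]
    abel

theorem Tower.base (T : Tower Θ B s q Y) (t : ℕ) : q t + Y t * B = s t + Θ * Y t := by
  rw [← T.h2, T.h1, add_comm]

theorem Tower.glift (T : Tower Θ B s q Y) : ∀ (a b t : ℕ),
    Fire Θ B (Tm Θ B a b (s t)) (Tm Θ B a b (Y t)) (Tm Θ B a b (q t)) →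
    Fire Θ B (s (t + a + b)) (Y (t + a + b)) (q (t + a + b)) := by
  have hb : ∀ a b t, Fire Θ B (Tm Θ B a (b + 1) (s t)) (Tm Θ B a (b + 1) (Y t))
      (Tm Θ B a (b + 1) (q t)) → Fire Θ B (Tm Θ B a b (s (t + 1))) (Tm Θ B a b (Y (t + 1)))
        (Tm Θ B a b (q (t + 1))) := by
    intro a b t h
    have h2 := Fire.basic (Θ := Θ) (B := B) 0 (Tm Θ B a b (q t))
    rw [Tm_mulB, Tm_mulT, zero_add, zero_add] at h2
    have h3 := h.trans h2
    have e1 : Tm Θ B a b (s (t + 1)) = Tm Θ B a (b + 1) (s t) := by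
      rw [T.s_add, Tm_Tm, add_zero]
    have e2 : Tm Θ B a b (q (t + 1)) = Tm Θ B (a + 1) b (q t) := by
      rw [T.q_add, Tm_Tm, add_zero]
    have e3 : Tm Θ B a b (Y (t + 1)) = Tm Θ B a (b + 1) (Y t) + Tm Θ B a b (q t) := by
      rw [T.h2, Tm_add, add_comm]
      congr 1
      have : Y t * B = Tm Θ B 0 1 (Y t) := by simp [Tm]
      rw [this, Tm_Tm, add_zero]
    rw [e1, e2, e3]
    exact h3
  have ha : ∀ a b t, Fire Θ B (Tm Θ B (a + 1) b (s t)) (Tm Θ B (a + 1) b (Y t))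
      (Tm Θ B (a + 1) b (q t)) → Fire Θ B (Tm Θ B a b (s (t + 1))) (Tm Θ B a b (Y (t + 1)))
        (Tm Θ B a b (q (t + 1))) := by
    intro a b t h
    have h2 := Fire.basic (Θ := Θ) (B := B) 0 (Tm Θ B a b (s t))
    rw [Tm_mulB, Tm_mulT, zero_add, zero_add] at h2
    have h3 := h2.trans h
    have e1 : Tm Θ B a b (s (t + 1)) = Tm Θ B a (b + 1) (s t) := by
      rw [T.s_add, Tm_Tm, add_zero]
    have e2 : Tm Θ B a b (q (t + 1)) = Tm Θ B (a + 1) b (q t) := by
      rw [T.q_add, Tm_Tm, add_zero]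
    have e3 : Tm Θ B a b (Y (t + 1)) = Tm Θ B a b (s t) + Tm Θ B (a + 1) b (Y t) := by
      rw [T.h1, Tm_add, add_comm]
      congr 1
      have : Θ * Y t = Tm Θ B 1 0 (Y t) := by simp [Tm]
      rw [this, Tm_Tm, add_zero]
    rw [e1, e2, e3]
    exact h3
  have hb' : ∀ b a t, Fire Θ B (Tm Θ B a b (s t)) (Tm Θ B a b (Y t)) (Tm Θ B a b (q t)) →
      Fire Θ B (Tm Θ B a 0 (s (t + b))) (Tm Θ B a 0 (Y (t + b))) (Tm Θ B a 0 (q (t + b))) := by
    intro b
    induction b with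
    | zero => intro a t h; exact h
    | succ b ih =>
      intro a t h
      have := ih a (t + 1) (hb a b t h)
      have e : t + 1 + b = t + (b + 1) := by ring
      rwa [e] at this
  have ha' : ∀ a t, Fire Θ B (Tm Θ B a 0 (s t)) (Tm Θ B a 0 (Y t)) (Tm Θ B a 0 (q t)) →
      Fire Θ B (Tm Θ B 0 0 (s (t + a))) (Tm Θ B 0 0 (Y (t + a))) (Tm Θ B 0 0 (q (t + a))) := by
    intro a
    induction a with
    | zero => intro t h; exact h
    | succ a ih =>
      intro t h
      have := ih (t + 1) (ha a 0 t h)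
      have e : t + 1 + a = t + (a + 1) := by ring
      rwa [e] at this
  intro a b t h
  have h1 := ha' a (t + b) (hb' b a t h)
  simp only [Tm_zero_zero] at h1
  have e : t + b + a = t + a + b := by ring
  rwa [e] at h1

/-- remainders -/
def md (L : ℕ) (u : Matrix γ β ℕ) : Matrix γ β ℕ := fun i x => u i x % L

/-- quotients -/
def dv (L : ℕ) (u : Matrix γ β ℕ) : Matrix γ β ℕ := fun i x => u i x / L

/-- the spread out configuration on the side of `s` -/
def sh (Θ : Matrix γ γ ℕ) (B : Matrix β β ℕ) (L : ℕ) (u : Matrix γ β ℕ) : Matrix γ β ℕ :=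
  Tm Θ B 0 L (md L u) + ∑ j ∈ Finset.range L, Tm Θ B j (L - j) (dv L u)

/-- the spread out configuration on the side of `q` -/
def qh (Θ : Matrix γ γ ℕ) (B : Matrix β β ℕ) (L : ℕ) (u : Matrix γ β ℕ) : Matrix γ β ℕ :=
  Tm Θ B L 0 (md L u) + ∑ j ∈ Finset.range L, Tm Θ B (L - j) j (dv L u)

theorem divmod (L : ℕ) (u : Matrix γ β ℕ) : md L u + L • dv L u = u := by
  ext i x
  rw [Matrix.add_apply, Matrix.smul_apply, smul_eq_mul]
  exact Nat.mod_add_div _ _

theorem sum_Tm_le {L : ℕ} {u w : Matrix γ β ℕ} (h : ∀ i x, L * w i x ≤ u i x) (i : γ) (x : β) :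
    L * (∑ k ∈ Finset.range L, Tm Θ B k (L - 1 - k) w) i x ≤
      (∑ k ∈ Finset.range L, Tm Θ B k (L - 1 - k) u) i x := by
  rw [Matrix.sum_apply, Matrix.sum_apply, Finset.mul_sum]
  refine Finset.sum_le_sum fun k _ => ?_
  have h1 : L * Tm Θ B k (L - 1 - k) w i x = Tm Θ B k (L - 1 - k) (L • w) i x := by
    rw [Tm_smul, Matrix.smul_apply, smul_eq_mul]
  rw [h1]
  refine Tm_mono (fun i x => ?_) i x
  rw [Matrix.smul_apply, smul_eq_mul]
  exact h i x

theorem VS_le {L : ℕ} {u w : Matrix γ β ℕ} (h : ∀ i x, L * w i x ≤ u i x) (i : γ) (x : β) :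
    (∑ j ∈ Finset.range L, ∑ k ∈ Finset.range j, Tm Θ B k (L - 1 - k) w) i x ≤
      (∑ k ∈ Finset.range L, Tm Θ B k (L - 1 - k) u) i x := by
  refine le_trans ?_ (sum_Tm_le h i x)
  have h1 : L * (∑ k ∈ Finset.range L, Tm Θ B k (L - 1 - k) w) i x =
      ∑ _j ∈ Finset.range L, (∑ k ∈ Finset.range L, Tm Θ B k (L - 1 - k) w) i x := by
    rw [Finset.sum_const, Finset.card_range, smul_eq_mul]
  rw [h1, Matrix.sum_apply]
  refine Finset.sum_le_sum fun j hj => ?_
  rw [Matrix.sum_apply, Matrix.sum_apply]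
  exact Finset.sum_le_sum_of_subset
    (Finset.range_subset_range.2 (Finset.mem_range.1 hj).le)

theorem VQ_le {L : ℕ} {u w : Matrix γ β ℕ} (h : ∀ i x, L * w i x ≤ u i x) (i : γ) (x : β) :
    (∑ j ∈ Finset.range L, ∑ k ∈ Finset.range j, Tm Θ B (L - j + k) (j - 1 - k) w) i x ≤
      (∑ k ∈ Finset.range L, Tm Θ B k (L - 1 - k) u) i x := by
  refine le_trans ?_ (sum_Tm_le h i x)
  have h1 : L * (∑ k ∈ Finset.range L, Tm Θ B k (L - 1 - k) w) i x =
      ∑ _j ∈ Finset.range L, (∑ k ∈ Finset.range L, Tm Θ B k (L - 1 - k) w) i x := by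
    rw [Finset.sum_const, Finset.card_range, smul_eq_mul]
  rw [h1, Matrix.sum_apply]
  refine Finset.sum_le_sum fun j hj => ?_
  rw [Matrix.sum_apply, Matrix.sum_apply]
  have hj' := Finset.mem_range.1 hj
  have e : ∀ k ∈ Finset.range j, Tm Θ B (L - j + k) (j - 1 - k) w i x =
      (fun k' => Tm Θ B k' (L - 1 - k') w i x) (L - j + k) := by
    intro k hk
    have := Finset.mem_range.1 hk
    have e1 : L - 1 - (L - j + k) = j - 1 - k := by omega
    simp only [e1]
  rw [Finset.sum_congr rfl e]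
  rw [← Finset.sum_image (f := fun k' => Tm Θ B k' (L - 1 - k') w i x) (g := fun k => L - j + k)
    (s := Finset.range j) (by intro a _ b _ h; simpa using h)]
  refine Finset.sum_le_sum_of_subset ?_
  intro k hk
  rw [Finset.mem_image] at hk
  obtain ⟨k', hk', rfl⟩ := hk
  have := Finset.mem_range.1 hk'
  rw [Finset.mem_range]
  omega

/-- **The assembly of the three parts of the firing sequence.** -/
theorem Tower.assemble (T : Tower Θ B s q Y) (L t a b : ℕ) :
    ∃ D : Matrix γ β ℕ,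
      qh Θ B L (Tm Θ B (a + L) b (q t)) + D * B = sh Θ B L (Tm Θ B a (b + L) (s t)) + Θ * D ∧
      (∀ i x, D i x ≤ Tm Θ B a b (Y (t + L + L)) i x) ∧
      (Fire Θ B (sh Θ B L (Tm Θ B a (b + L) (s t))) D (qh Θ B L (Tm Θ B (a + L) b (q t))) →
        Fire Θ B (s (t + L + L + a + b)) (Y (t + L + L + a + b)) (q (t + L + L + a + b))) := by
  set u := Tm Θ B a (b + L) (s t) with hu
  set u' := Tm Θ B (a + L) b (q t) with hu'
  set w : Matrix γ β ℕ := dv L u with hw
  set w' : Matrix γ β ℕ := dv L u' with hw'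
  set VS := ∑ j ∈ Finset.range L, ∑ k ∈ Finset.range j, Tm Θ B k (L - 1 - k) w with hVS
  set VQ := ∑ j ∈ Finset.range L, ∑ k ∈ Finset.range j, Tm Θ B (L - j + k) (j - 1 - k) w' with hVQ
  set U := ∑ k ∈ Finset.range L, Tm Θ B k (L - 1 - k) u with hU
  set U' := ∑ k ∈ Finset.range L, Tm Θ B k (L - 1 - k) u' with hU'
  have b1 : ∀ i x, VS i x ≤ U i x := VS_le (fun i x => Nat.mul_div_le _ _)
  have b2 : ∀ i x, VQ i x ≤ U' i x := VQ_le (fun i x => Nat.mul_div_le _ _)
  have f1 : Fire Θ B (Tm Θ B a b (s (t + L + L))) VS (sh Θ B L u) := by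
    have h := spreadS (Θ := Θ) (B := B) w L L le_rfl (Tm Θ B 0 L (md L u))
    rw [← Tm_smul, ← Tm_add, hw, divmod L u] at h
    have e : Tm Θ B 0 L u = Tm Θ B a b (s (t + L + L)) := by
      rw [hu, Tm_Tm, T.s_add, T.s_add, Tm_Tm, Tm_Tm]
      congr 1 <;> omega
    rw [e] at h
    exact h
  have f3 : Fire Θ B (qh Θ B L u') VQ (Tm Θ B a b (q (t + L + L))) := by
    have h := spreadQ (Θ := Θ) (B := B) w' L L le_rfl (Tm Θ B L 0 (md L u'))
    rw [← Tm_smul, ← Tm_add, hw', divmod L u'] at h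
    have e : Tm Θ B L 0 u' = Tm Θ B a b (q (t + L + L)) := by
      rw [hu', Tm_Tm, T.q_add, T.q_add, Tm_Tm, Tm_Tm]
      congr 1 <;> omega
    rw [e] at h
    exact h
  have tot : Tm Θ B a b (Y (t + L + L)) = U + U' + Tm Θ B (a + L) (b + L) (Y t) := by
    rw [T.Y_add1 (t + L) L, T.Y_add2 t L, T.s_add, Tm_add, Tm_add, Tm_add, Tm_sum, Tm_sum,
      Tm_sum, ← add_assoc]
    congr 1
    · congr 1
      · refine Finset.sum_congr rfl fun k _ => ?_
        rw [hu, Tm_Tm, Tm_Tm, Tm_Tm]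
        congr 1 <;> omega
      · refine Finset.sum_congr rfl fun k _ => ?_
        rw [hu', Tm_Tm, Tm_Tm, Tm_Tm]
        congr 1 <;> omega
    · rw [Tm_Tm, Tm_Tm]
      congr 1
  set W := Tm Θ B a b (Y (t + L + L)) with hW
  set D : Matrix γ β ℕ := W - VS - VQ with hD
  have hsum : VS + D + VQ = W := by
    ext i x
    have h1 := b1 i x
    have h2 := b2 i x
    have h3 := congrFun (congrFun tot i) x
    simp only [hD, Matrix.add_apply, Matrix.sub_apply] at h3 ⊢
    omega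
  have hbase : Tm Θ B a b (q (t + L + L)) + W * B = Tm Θ B a b (s (t + L + L)) + Θ * W := by
    have h := congrArg (Tm Θ B a b) (T.base (t + L + L))
    rw [Tm_add, Tm_add] at h
    have e1 : Tm Θ B a b (Y (t + L + L) * B) = W * B := by
      rw [hW, Tm_mulB]
      have : Y (t + L + L) * B = Tm Θ B 0 1 (Y (t + L + L)) := by simp [Tm]
      rw [this, Tm_Tm, add_zero]
    have e2 : Tm Θ B a b (Θ * Y (t + L + L)) = Θ * W := by
      rw [hW, Tm_mulT]
      have : Θ * Y (t + L + L) = Tm Θ B 1 0 (Y (t + L + L)) := by simp [Tm]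
      rw [this, Tm_Tm, add_zero]
    rwa [e1, e2] at h
  refine ⟨D, ?_, ?_, ?_⟩
  · have e1 := f1.eq
    have e3 := f3.eq
    rw [← hsum, Matrix.add_mul, Matrix.add_mul, Matrix.mul_add, Matrix.mul_add] at hbase
    ext i x
    have g1 := congrFun (congrFun e1 i) x
    have g3 := congrFun (congrFun e3 i) x
    have g := congrFun (congrFun hbase i) x
    simp only [Matrix.add_apply] at g1 g3 g ⊢
    omega
  · intro i x
    simp only [hD, Matrix.sub_apply]
    omega
  · intro f2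
    refine T.glift a b (t + L + L) ?_
    have h := (f1.trans f2).trans f3
    rw [hsum] at h
    exact h

end Pool.Agent.H15L
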